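import Pool.Agent.Q298.JS.Rel7

/-!
Several linear systems: the theorem, with the hypotheses collected in a structure.
-/

set_option autoImplicit false
set_option linter.unusedSectionVars false

open FF hiding phi
open Module Pool.Agent.W602.GT Pool.Agent.TH766.MC
open Pool.Agent.TH585.SV

namespace Pool.Agent.Q298.JS

variable {N e lam : ℕ} {K : Type} [Field K] [Algebra ℂ K]

/-- the hypotheses on several linear systems `V i`: the images under the first `j` systems have the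
dimension `∑ i < j, d i`; the general fibres of the map of the first `i` systems have nondegenerate
images under `V i`; `V i` is spanned by powerful members, which do not split. -/
structure Sys (N : ℕ) (X : Set (Place ℂ K)) {c : ℕ} (d k : Fin c → ℕ)
    (V : Fin c → Submodule ℂ K) (δ₁ : Fin c → Place ℂ K → ℝ) : Prop where
  pos : ∀ i, 1 ≤ d i
  dim : ∀ j ≤ c, Algebra.trdeg ℂ (TF V j) =
    (∑ i ∈ Finset.univ.filter (fun i : Fin c => (i : ℕ) < j), d i : ℕ)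
  rank : ∀ i, Module.finrank ℂ (V i) = d i + k i + 1
  ndg : ∀ i : Fin c, Module.finrank (Pool.Agent.Y172.acl ℂ (TF V i : Set K))
      (Submodule.span (Pool.Agent.Y172.acl ℂ (TF V i : Set K)) (V i : Set K)) = d i + k i + 1
  mem : ∀ i, ∃ (q : ℕ) (φ : Fin q → K) (R : ℕ) (s : ℝ), (∀ j, φ j ≠ 0) ∧
    Submodule.span ℂ (Set.range φ) = V i ∧
    (¬ ∃ V1 V2 : Submodule ℂ K, V1 ≠ ⊥ ∧ V2 ≠ ⊥ ∧ Disjoint V1 V2 ∧ V1 ⊔ V2 = V i ∧
      ∀ j, φ j ∈ V1 ∨ φ j ∈ V2) ∧
    (R = d i + k i + 2 ∨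
      ((∃ τ : Fin (d i + k i + 3) → Fin q, ∀ a b, a ≠ b → ∀ t : ℂ, φ (τ a) ≠ t • φ (τ b)) ∧
        R = d i + k i + 1)) ∧
    (R : ℝ) * ((k i + 1) * (k i + 2)) < 2 * s ∧
    ∀ P ∈ X, Divisorial N P → ∀ a : ℤ, (∀ f ∈ V i, f = 0 ∨ a ≤ P.ord f) →
      (∃ f ∈ V i, f ≠ 0 ∧ P.ord f = a) → (∃ j, P.ord (φ j) ≠ a) →
      ∃ j, s * (1 - δ₁ i P) ≤ ((P.ord (φ j) - a : ℤ) : ℝ)

theorem sum_filter_succ {c : ℕ} (d : Fin c → ℕ) (i : Fin c) :
    ∑ a ∈ Finset.univ.filter (fun a : Fin c => (a : ℕ) < (i : ℕ) + 1), d a =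
      ∑ a ∈ Finset.univ.filter (fun a : Fin c => (a : ℕ) < i), d a + d i := by
  classical
  have h1 : Finset.univ.filter (fun a : Fin c => (a : ℕ) < (i : ℕ) + 1) =
      insert i (Finset.univ.filter (fun a : Fin c => (a : ℕ) < i)) := by
    ext a
    simp only [Finset.mem_filter, Finset.mem_univ, true_and, Finset.mem_insert]
    constructor
    · intro h
      by_cases ha : a = i
      · exact Or.inl ha
      · right
        have : (a : ℕ) ≠ i := fun h => ha (Fin.ext h)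
        omega
    · rintro (rfl | h) <;> omega
  rw [h1, Finset.sum_insert (by simp), add_comm]

theorem sum_filter_all {c : ℕ} (d : Fin c → ℕ) :
    ∑ a ∈ Finset.univ.filter (fun a : Fin c => (a : ℕ) < c), d a = ∑ a, d a := by
  rw [Finset.filter_true_of_mem fun a _ => a.2]

theorem Sys.top {X : Set (Place ℂ K)} {c : ℕ} {d k : Fin c → ℕ} {V : Fin c → Submodule ℂ K}
    {δ₁ : Fin c → Place ℂ K → ℝ} (h : Sys N X d k V δ₁) :
    Algebra.trdeg ℂ (TF V c) = (∑ i, d i : ℕ) := by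
  rw [h.dim c le_rfl, sum_filter_all]

/-- **Several linear systems with forms along the fibres.** -/
theorem Sys.main {X : Set (Place ℂ K)} {c : ℕ} {d k : Fin c → ℕ} {V : Fin c → Submodule ℂ K}
    {δ₁ : Fin c → Place ℂ K → ℝ} (hS : Sys (∑ i, d i + e) X d k V δ₁)
    (hK : Algebra.trdeg ℂ K = (∑ i, d i + e : ℕ)) {δ₂ δ : Place ℂ K → ℝ}
    (hδ₁ : ∀ i, ∀ P ∈ X, 0 ≤ δ₁ i P) (hδ : ∀ P ∈ X, ∑ i, δ₁ i P + δ₂ P ≤ δ P)
    (hF : HasF (∑ i, d i + e) X δ₂ (TF V c) e lam) :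
    ∃ M : ℕ, 0 < M ∧ ∃ ω : Fin (∑ i, d i + lam + 1) → (Fin (∑ i, d i + e) → Derivation ℂ K K) → K,
      (∀ j, PairSec (∑ i, d i + e) X δ M (ω j)) ∧
      ∃ D, ω 0 D ≠ 0 ∧
        AlgebraicIndependent ℂ (fun i : Fin (∑ i, d i + lam) => ω i.succ D / ω 0 D) := by
  classical
  choose q φ R s h1 h2 h3 h4 h5 h6 using hS.mem
  have h7 := tower (N := ∑ i, d i + e) (e := e) (lam := lam) (V := V)
    (D := fun j => ∑ a ∈ Finset.univ.filter (fun a : Fin c => (a : ℕ) < j), d a)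
    (fun j hj => hS.dim j hj) hS.pos (fun i => sum_filter_succ d i)
    (by rw [hK, sum_filter_all]) hS.rank hS.ndg h1 h2 h3 h4 X δ₁ δ₂ δ hδ₁ hδ h5 h6 hF
  have h8 : (∑ a ∈ Finset.univ.filter (fun a : Fin c => (a : ℕ) < 0), d a) = 0 := by
    rw [Finset.filter_false_of_mem fun a _ => Nat.not_lt_zero _, Finset.sum_empty]
  simp only [h8, Nat.sub_zero, sum_filter_all] at h7
  rw [TF_zero] at h7
  exact h7.abs

end Pool.Agent.Q298.JS
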