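import Pool.Agent.Q298.JS.Tow
import Pool.Agent.Q298.MX.Stage

/-!
Several linear systems relative to a base.
-/

set_option autoImplicit false
set_option linter.unusedSectionVars false

open FF hiding phi
open Module Pool.Agent.W602.GT Pool.Agent.TH766.MC Pool.Agent.W603.LV
open Pool.Agent.TH585.SV

namespace Pool.Agent.Q298.JS

variable {N e lam : ℕ} {K : Type} [Field K] [Algebra ℂ K]

/-- the function field of the image in the product of the base, with function field `B`, and of the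
projective spaces of the first `j` linear systems -/
noncomputable def TB (B : IntermediateField ℂ K) {c : ℕ} (V : Fin c → Submodule ℂ K) (j : ℕ) :
    IntermediateField ℂ K := B ⊔ TF V j

theorem TB_zero (B : IntermediateField ℂ K) {c : ℕ} (V : Fin c → Submodule ℂ K) :
    TB B V 0 = B := by
  unfold TB
  rw [TF_zero, sup_bot_eq]

theorem TB_succ (B : IntermediateField ℂ K) {c : ℕ} (V : Fin c → Submodule ℂ K) (i : Fin c) :
    TB B V (i + 1) = TB B V i ⊔ rf (V i) := by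
  unfold TB
  rw [TF_succ, sup_assoc]

/-- **Several linear systems relative to a base.** -/
theorem towerB (B : IntermediateField ℂ K) {c : ℕ} {V : Fin c → Submodule ℂ K} {D : ℕ → ℕ}
    (hD : ∀ j ≤ c, Algebra.trdeg ℂ (TB B V j) = D j) {d k : Fin c → ℕ} (hd : ∀ i, 1 ≤ d i)
    (hDs : ∀ i : Fin c, D (i + 1) = D i + d i) (hK : Algebra.trdeg ℂ K = (D c + e : ℕ))
    (hn : ∀ i, Module.finrank ℂ (V i) = d i + k i + 1)
    (hA : ∀ i : Fin c, Module.finrank (Pool.Agent.Y172.acl ℂ (TB B V i : Set K))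
      (Submodule.span (Pool.Agent.Y172.acl ℂ (TB B V i : Set K)) (V i : Set K)) = d i + k i + 1)
    {q : Fin c → ℕ} {φ : ∀ i, Fin (q i) → K} (hφ0 : ∀ i j, φ i j ≠ 0)
    (hφ : ∀ i, Submodule.span ℂ (Set.range (φ i)) = V i)
    (hγ : ∀ i, ¬ ∃ V1 V2 : Submodule ℂ K, V1 ≠ ⊥ ∧ V2 ≠ ⊥ ∧ Disjoint V1 V2 ∧ V1 ⊔ V2 = V i ∧
      ∀ j, φ i j ∈ V1 ∨ φ i j ∈ V2)
    {R : Fin c → ℕ} (hR : ∀ i, R i = d i + k i + 2 ∨
      ((∃ τ : Fin (d i + k i + 3) → Fin (q i), ∀ a b, a ≠ b → ∀ t : ℂ,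
        φ i (τ a) ≠ t • φ i (τ b)) ∧ R i = d i + k i + 1))
    (X : Set (Place ℂ K)) (δ₁ : Fin c → Place ℂ K → ℝ) (δ₂ δ : Place ℂ K → ℝ)
    (hδ₁ : ∀ i, ∀ P ∈ X, 0 ≤ δ₁ i P) (hδ : ∀ P ∈ X, ∑ i, δ₁ i P + δ₂ P ≤ δ P) {s : Fin c → ℝ}
    (hs : ∀ i, (R i : ℝ) * ((k i + 1) * (k i + 2)) < 2 * s i)
    (h : ∀ i, ∀ P ∈ X, Divisorial N P → ∀ a : ℤ, (∀ f ∈ V i, f = 0 ∨ a ≤ P.ord f) →
      (∃ f ∈ V i, f ≠ 0 ∧ P.ord f = a) → (∃ j, P.ord (φ i j) ≠ a) →
      ∃ j, s i * (1 - δ₁ i P) ≤ ((P.ord (φ i j) - a : ℤ) : ℝ))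
    (hF : HasF N X δ₂ (TB B V c) e lam) :
    HasF N X δ (TB B V 0) (D c - D 0 + e) (D c - D 0 + lam) := by
  classical
  have hmono : ∀ r j, j + r = c → D j ≤ D c := by
    intro r
    induction r with
    | zero => intro j hj; rw [← hj]; simp
    | succ r ih =>
      intro j hj
      have h1 := hDs ⟨j, by omega⟩
      have h2 := ih (j + 1) (by omega)
      have h3 : D (j + 1) = D j + d ⟨j, by omega⟩ := h1
      omega
  have key : ∀ r j, j + r = c → HasF N X (fun P => (∑ i : Fin c, if j ≤ (i : ℕ) then δ₁ i P else 0)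
      + δ₂ P) (TB B V j) (D c - D j + e) (D c - D j + lam) := by
    intro r
    induction r with
    | zero =>
      intro j hj
      obtain rfl : j = c := by omega
      rw [Nat.sub_self, Nat.zero_add, Nat.zero_add]
      refine hF.mono fun P hP => ?_
      have h1 : (∑ i : Fin j, if j ≤ (i : ℕ) then δ₁ i P else 0) = 0 :=
        Finset.sum_eq_zero fun i _ => by rw [if_neg (by omega)]
      rw [h1, zero_add]
    | succ r ih =>
      intro j hj
      obtain ⟨i, hi⟩ : ∃ i : Fin c, (i : ℕ) = j := ⟨⟨j, by omega⟩, rfl⟩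
      obtain ⟨m, hm, θ, hθ, hne⟩ := ih (j + 1) (by omega)
      have h1 : D (j + 1) = D j + d i := by
        have := hDs i
        rwa [hi] at this
      have h2 := hmono r (j + 1) (by omega)
      have hLV : TB B V (j + 1) = TB B V j ⊔ rf (V i) := by
        have := TB_succ B V i
        rwa [hi] at this
      have hAj := hA i
      rw [hi] at hAj
      have e1 : D c - D j + e = d i + (D c - D (j + 1) + e) := by omega
      have e2 : D c - D j + lam = d i + (D c - D (j + 1) + lam) := by omega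
      rw [e1, e2]
      exact lin_stage (N := N) (hd i) hLV (hD j (by omega)) (by rw [hD (j + 1) (by omega), h1])
        (by rw [hK]; congr 1; omega) (hn i) hAj (hφ0 i) (hφ i) (hγ i) (hR i) X (δ₁ i) _ _
        (hδ₁ i) (fun P hP => by
          have h3 : ∀ a : Fin c, (if j ≤ (a : ℕ) then δ₁ a P else 0) =
              (if a = i then δ₁ a P else 0) + if j + 1 ≤ (a : ℕ) then δ₁ a P else 0 := by
            intro a
            by_cases ha : a = i
            · subst ha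
              rw [if_pos (by omega), if_pos rfl, if_neg (by omega), add_zero]
            · have ha' : (a : ℕ) ≠ j := fun h => ha (Fin.ext (by rw [h, hi]))
              rw [if_neg ha, zero_add]
              congr 1
              exact propext ⟨fun h => by omega, fun h => by omega⟩
          have h4 : (∑ a : Fin c, if j ≤ (a : ℕ) then δ₁ a P else 0) = δ₁ i P +
              ∑ a : Fin c, if j + 1 ≤ (a : ℕ) then δ₁ a P else 0 := by
            rw [Finset.sum_congr rfl fun a _ => h3 a, Finset.sum_add_distrib,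
              Finset.sum_ite_eq' Finset.univ i, if_pos (Finset.mem_univ _)]
          rw [h4, add_assoc]) (hs i) (h i) hm hθ hne
  refine (key c 0 (by omega)).mono fun P hP => ?_
  refine le_trans (le_of_eq ?_) (hδ P hP)
  congr 1

/-- the hypotheses on several linear systems `V i` relative to a base with the function field `B` -/
structure SysB (N : ℕ) (X : Set (Place ℂ K)) (B : IntermediateField ℂ K) (b : ℕ) {c : ℕ}
    (d k : Fin c → ℕ) (V : Fin c → Submodule ℂ K) (δ₁ : Fin c → Place ℂ K → ℝ) : Prop where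
  pos : ∀ i, 1 ≤ d i
  dim : ∀ j ≤ c, Algebra.trdeg ℂ (TB B V j) =
    (b + ∑ i ∈ Finset.univ.filter (fun i : Fin c => (i : ℕ) < j), d i : ℕ)
  rank : ∀ i, Module.finrank ℂ (V i) = d i + k i + 1
  ndg : ∀ i : Fin c, Module.finrank (Pool.Agent.Y172.acl ℂ (TB B V i : Set K))
      (Submodule.span (Pool.Agent.Y172.acl ℂ (TB B V i : Set K)) (V i : Set K)) = d i + k i + 1
  mem : ∀ i, ∃ (q : ℕ) (φ : Fin q → K) (R : ℕ) (s : ℝ), (∀ j, φ j ≠ 0) ∧
    Submodule.span ℂ (Set.range φ) = V i ∧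
    (¬ ∃ V1 V2 : Submodule ℂ K, V1 ≠ ⊥ ∧ V2 ≠ ⊥ ∧ Disjoint V1 V2 ∧ V1 ⊔ V2 = V i ∧
      ∀ j, φ j ∈ V1 ∨ φ j ∈ V2) ∧
    (R = d i + k i + 2 ∨
      ((∃ τ : Fin (d i + k i + 3) → Fin q, ∀ a b, a ≠ b → ∀ t : ℂ, φ (τ a) ≠ t • φ (τ b)) ∧
        R = d i + k i + 1)) ∧
    (R : ℝ) * ((k i + 1) * (k i + 2)) < 2 * s ∧
    ∀ P ∈ X, Divisorial N P → ∀ a : ℤ, (∀ f ∈ V i, f = 0 ∨ a ≤ P.ord f) →
      (∃ f ∈ V i, f ≠ 0 ∧ P.ord f = a) → (∃ j, P.ord (φ j) ≠ a) →
      ∃ j, s * (1 - δ₁ i P) ≤ ((P.ord (φ j) - a : ℤ) : ℝ)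

theorem SysB.base {X : Set (Place ℂ K)} {B : IntermediateField ℂ K} {b : ℕ} {c : ℕ}
    {d k : Fin c → ℕ} {V : Fin c → Submodule ℂ K} {δ₁ : Fin c → Place ℂ K → ℝ}
    (h : SysB N X B b d k V δ₁) : Algebra.trdeg ℂ B = b := by
  have h1 := h.dim 0 (Nat.zero_le _)
  rw [TB_zero, Finset.filter_false_of_mem fun a _ => Nat.not_lt_zero _, Finset.sum_empty,
    add_zero] at h1
  exact h1

theorem SysB.top {X : Set (Place ℂ K)} {B : IntermediateField ℂ K} {b : ℕ} {c : ℕ}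
    {d k : Fin c → ℕ} {V : Fin c → Submodule ℂ K} {δ₁ : Fin c → Place ℂ K → ℝ}
    (h : SysB N X B b d k V δ₁) : Algebra.trdeg ℂ (TB B V c) = (b + ∑ i, d i : ℕ) := by
  rw [h.dim c le_rfl, sum_filter_all]

/-- **Several linear systems with forms along the fibres, relative to a base.** -/
theorem SysB.main {X : Set (Place ℂ K)} {B : IntermediateField ℂ K} {b : ℕ} {c : ℕ}
    {d k : Fin c → ℕ} {V : Fin c → Submodule ℂ K}
    {δ₁ : Fin c → Place ℂ K → ℝ} (hS : SysB N X B b d k V δ₁)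
    (hK : Algebra.trdeg ℂ K = (b + (∑ i, d i + e) : ℕ)) {δ₂ δ : Place ℂ K → ℝ}
    (hδ₁ : ∀ i, ∀ P ∈ X, 0 ≤ δ₁ i P) (hδ : ∀ P ∈ X, ∑ i, δ₁ i P + δ₂ P ≤ δ P)
    (hF : HasF N X δ₂ (TB B V c) e lam) : HasF N X δ B (∑ i, d i + e) (∑ i, d i + lam) := by
  classical
  choose q φ R s h1 h2 h3 h4 h5 h6 using hS.mem
  have h7 := towerB B (N := N) (e := e) (lam := lam) (V := V)
    (D := fun j => b + ∑ a ∈ Finset.univ.filter (fun a : Fin c => (a : ℕ) < j), d a)
    (fun j hj => hS.dim j hj) hS.pos (fun i => by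
      rw [sum_filter_succ d i, add_assoc])
    (by rw [hK, sum_filter_all, add_assoc]) hS.rank hS.ndg h1 h2 h3 h4 X δ₁ δ₂ δ hδ₁ hδ h5 h6 hF
  have h8 : (∑ a ∈ Finset.univ.filter (fun a : Fin c => (a : ℕ) < 0), d a) = 0 := by
    rw [Finset.filter_false_of_mem fun a _ => Nat.not_lt_zero _, Finset.sum_empty]
  simp only [h8, add_zero, sum_filter_all, Nat.add_sub_cancel_left] at h7
  rw [TB_zero] at h7
  exact h7

/-- **Iitaka's inequality** for linear systems relative to a base. -/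
theorem SysB.iitaka {X : Set (Place ℂ K)} {B : IntermediateField ℂ K} {b : ℕ} {c : ℕ}
    {d k : Fin c → ℕ} {V : Fin c → Submodule ℂ K}
    {δ₁ : Fin c → Place ℂ K → ℝ} (hS : SysB (b + (∑ i, d i + e)) X B b d k V δ₁)
    (hK : Algebra.trdeg ℂ K = (b + (∑ i, d i + e) : ℕ)) {δ₂ δ : Place ℂ K → ℝ}
    (hδ₁ : ∀ i, ∀ P ∈ X, 0 ≤ δ₁ i P) (hδ : ∀ P ∈ X, ∑ i, δ₁ i P + δ₂ P ≤ δ P)
    (hF : HasF (b + (∑ i, d i + e)) X δ₂ (TB B V c) e lam) [Algebra.EssFiniteType ℂ B]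
    {m₀ a : ℕ} (hm₀ : 0 < m₀) {η : Fin (a + 1) → (Fin b → Derivation ℂ B B) → B}
    (hη : ∀ l, IsPluri m₀ (η l) ∧ ∀ P : Place ℂ B, Divisorial b P →
      ∀ D : Fin b → Derivation ℂ B B, (∀ i, DerReg P (D i)) → P.Reg (η l D))
    (hne : ∃ D, η 0 D ≠ 0 ∧ AlgebraicIndependent ℂ (fun i : Fin a => η i.succ D / η 0 D)) :
    ∃ M : ℕ, 0 < M ∧ ∃ ω : Fin (a + (∑ i, d i + lam) + 1) →
      (Fin (b + (∑ i, d i + e)) → Derivation ℂ K K) → K,
      (∀ j, PairSec (b + (∑ i, d i + e)) X δ M (ω j)) ∧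
      ∃ D, ω 0 D ≠ 0 ∧
        AlgebraicIndependent ℂ (fun i : Fin (a + (∑ i, d i + lam)) => ω i.succ D / ω 0 D) := by
  have h1 := hS.main hK hδ₁ hδ hF
  have h0 : Algebra.trdeg ℂ (⊥ : IntermediateField ℂ K) = (0 : ℕ) := by
    have h0 : Algebra.IsAlgebraic ℂ ℂ := inferInstance
    rw [(IntermediateField.botEquiv ℂ K).trdeg_eq, trdeg_eq_zero_iff.2 h0]
    rfl
  have h2 := Pool.Agent.Q298.MX.pluri_stage (N := b + (∑ i, d i + e)) (e₀ := b)
    (e₁ := ∑ i, d i + e) hK (L := ⊥) (L' := B) (M := B) bot_le le_rfl (fun D _ h => h)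
    (trdeg_over h0 (by rw [hK, zero_add])) (trdeg_over hS.base hK) hS.base hη hne hm₀ h1
  exact h2.abs

end Pool.Agent.Q298.JS
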