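import Pool.Agent.Q298.EF.CycGeo
import Pool.Agent.Q298.JS.Tow

/-! Superelliptic fibrations over bases with many sections. -/

set_option autoImplicit false
set_option linter.overlappingInstances false
set_option linter.unusedSectionVars false

open FF Pool.Agent.W602.GT Pool.Agent.W603.LV Pool.Agent.W619.PQ
open Pool.Agent.Y172 Pool.Agent.TH585.SV Pool.Agent.Y191
open Pool.Agent.Q298.EF

namespace Pool.Agent.Q298.JS

section

variable {K K' : Type} [Field K] [Field K'] [Algebra ℂ K] [Algebra ℂ K'] [Algebra K K']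
  [IsScalarTower ℂ K K'] [FiniteDimensional K K'] {d e N : ℕ}

/-- **Abundance for superelliptic fibrations**, over a base with many sections. -/
theorem cycg_gen {y : Fin (N + 1) → K} {Δ : Place ℂ K → ℚ} (hy : NormalModel y)
    (hK : Algebra.trdeg ℂ K = (d + e : ℕ)) (hΔ : Effective y Δ)
    {L : IntermediateField ℂ K} (hV : Algebra.trdeg ℂ L = d)
    (hbase : ∀ lam : ℕ, HasF (d + e) {P | IsPrimeDivisor y P} (fun _ => 0) L e lam →
      ∃ M : ℕ, 0 < M ∧ ∃ ω : Fin (d + lam + 1) → (Fin (d + e) → Derivation ℂ K K) → K,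
        (∀ j, Pool.Agent.TH766.MC.PairSec (d + e) {P | IsPrimeDivisor y P}
          (fun P => (Δ P : ℝ)) M (ω j)) ∧
        ∃ D, ω 0 D ≠ 0 ∧
          AlgebraicIndependent ℂ (fun i : Fin (d + lam) => ω i.succ D / ω 0 D))
    (hdisc : ∀ Q : Place ℂ K, Divisorial (d + e) Q → (∀ f ∈ L, f ≠ 0 → Q.ord f = 0) →
      LogDisc y (d + e) Δ Q 1)
    {α : K'} (hα : IsAlgebraic (upF K' L) α)
    (htop : ∀ z : K', ∃ p : Polynomial K, z = Polynomial.aeval α p)
    {x z : Fin e → K'} (hx : IsTranscendenceBasis (upF K' L) x) {m : Fin e → ℕ}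
    (hm : ∀ j, 1 ≤ m j) {G : Fin e → Polynomial (acl ℂ (upF K' L : Set K'))}
    (hG : ∀ j, G j ≠ 0) (heq : ∀ j, z j ^ m j = Polynomial.aeval (x j) (G j))
    (hgen : IntermediateField.adjoin ℂ
      ((acl ℂ (upF K' L : Set K') : Set K') ∪ Set.range x ∪ Set.range z) = ⊤) :
    ((∃ j, wgt (m j) (G j) < 2) → kodairaDim y (d + e) Δ = ⊥ ∧
      ∀ A, Effective y A → numericalDim y (d + e) Δ A = ⊥) ∧
    ((∀ j, 2 ≤ wgt (m j) (G j)) →
      kodairaDim y (d + e) Δ =
        ((d + (Finset.univ.filter fun j => 2 < wgt (m j) (G j)).card : ℕ) : WithBot ℕ) ∧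
      ∀ A, Effective y A → Integral y A → numericalDim y (d + e) Δ A =
        ((d + (Finset.univ.filter fun j => 2 < wgt (m j) (G j)).card : ℕ) : EReal)) := by
  classical
  obtain ⟨s, g, a, c, hc, hw⟩ := cyc_data hx hm hG heq hgen
  have hLK : Algebra.trdeg L K = e := by
    have h1 := _root_.trdeg_add_eq ℂ L (A := K)
    rw [hV, hK] at h1
    push_cast at h1
    exact Cardinal.eq_of_add_eq_add_left h1 Cardinal.natCast_lt_aleph0
  obtain ⟨h1, h2⟩ := cycp_ab (K := K) hy hK hΔ (acl_closed (upF K' L : Set K')) hc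
    (fun P hP htr => hdisc _ (divisorial_down (over_bel K P) hP) fun f hf hf0 => by
      have h3 : algebraMap K K' f ∈ acl ℂ (upF K' L : Set K') :=
        subset_acl _ (mem_upF.2 ⟨f, hf, rfl⟩)
      have h4 := htr _ h3 (by rwa [Ne, map_eq_zero])
      rw [(over_bel K P).2] at h4
      rcases mul_eq_zero.1 h4 with h5 | h5
      · have h6 := (over_bel K P).1
        omega
      · exact h5)
  simp only [hw] at h1 h2
  refine ⟨h1, fun hws => ?_⟩
  obtain ⟨κ, hκ, hκs⟩ : ∃ κ : Fin (Finset.univ.filter fun j => 2 < wgt (m j) (G j)).card → Fin e,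
      Function.Injective κ ∧ ∀ i, 2 < wgt (m (κ i)) (G (κ i)) := by
    let ψ := (Finset.univ.filter fun j => 2 < wgt (m j) (G j)).equivFin
    exact ⟨fun i => (ψ.symm i : Fin e), fun a b hab => ψ.symm.injective (Subtype.ext hab),
      fun i => (Finset.mem_filter.1 (ψ.symm i).2).2⟩
  obtain ⟨M, hM, θ, hθ, hne⟩ := cycg_low (N := d + e) hLK hα htop hc
    (fun j => by rw [hw]; exact hws j) hκ (fun i => by rw [hw]; exact hκs i)
    {P | IsPrimeDivisor y P}
  have hlow := hbase _ ⟨M, hM, θ, hθ, hne⟩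
  refine h2 _ hws ?_ hlow
  -- the numbers of the curves
  have h3 : (Finset.univ.filter fun j : Fin e => 2 < wgt (m j) (G j)).card +
      (Finset.univ.filter fun j : Fin e => wgt (m j) (G j) = 2).card = e := by
    have h4 := Finset.card_filter_add_card_filter_not (s := (Finset.univ : Finset (Fin e)))
      (fun j => 2 < wgt (m j) (G j))
    rw [Finset.card_univ, Fintype.card_fin] at h4
    have h5 : (Finset.univ.filter fun j : Fin e => ¬ 2 < wgt (m j) (G j)) =
        Finset.univ.filter fun j : Fin e => wgt (m j) (G j) = 2 := by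
      refine Finset.filter_congr fun j _ => ?_
      constructor
      · exact fun h6 => le_antisymm (not_lt.1 h6) (hws j)
      · exact fun h6 => by rw [h6]; exact lt_irrefl _
    rw [h5] at h4
    exact h4
  omega

end

end Pool.Agent.Q298.JS
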