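import Pool.Agent.TH585.SV.Fib9
import Pool.Agent.Q298.EF.LinOne

/-!
Generalised Wronskians relative to a subfield: the vector fields vanish on a subfield `L`, and the
functions are linearly independent over the algebraic closure of `L` (the case `L = ℂ` is
`Pool.Agent.TH585.SV`, whose proofs are followed).
-/

set_option autoImplicit false
set_option linter.unusedSectionVars false

open FF hiding phi
open Module Pool.Agent.W603.LV Pool.Agent.W602.GT Pool.Agent.W602.Cov Pool.Agent.W602.Cov.G
open Pool.Agent.W168.CG.PGR Pool.Agent.TH152.AC Pool.Agent.TH152.HY Pool.Agent.TH766.MC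
open Pool.Agent.TH585.SV

namespace Pool.Agent.Q298.JS

variable {d e k n q : ℕ} {K : Type} [Field K] [Algebra ℂ K] {L : IntermediateField ℂ K}

/-- the vector field vanishes on the subfield -/
def Kl (L : IntermediateField ℂ K) (D : Derivation ℂ K K) : Prop := ∀ f ∈ L, D f = 0

theorem Kl.sum {ι : Type} {s : Finset ι} {c : ι → K} {D : ι → Derivation ℂ K K}
    (h : ∀ i, Kl L (D i)) : Kl L (∑ i ∈ s, c i • D i) := by
  intro f hf
  rw [der_sum]
  exact Finset.sum_eq_zero fun i _ => by rw [h i f hf, mul_zero]

theorem Kl.add {D D' : Derivation ℂ K K} (h : Kl L D) (h' : Kl L D') : Kl L (D + D') := by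
  intro f hf
  rw [Derivation.add_apply, h f hf, h' f hf, add_zero]

theorem Kl.sub {D D' : Derivation ℂ K K} (h : Kl L D) (h' : Kl L D') : Kl L (D - D') := by
  intro f hf
  rw [Derivation.sub_apply, h f hf, h' f hf, sub_zero]

theorem Kl.res (D : Derivation L K K) : Kl L (D.restrictScalars ℂ) := by
  intro f hf
  change D f = 0
  have h1 : f = algebraMap L K ⟨f, hf⟩ := rfl
  rw [h1, D.map_algebraMap]

/-- vector fields which vanish on `L` are determined by a transcendence basis -/
theorem Kl.ext {ι : Type} {t : ι → K} (ht : IsTranscendenceBasis L t) {D D' : Derivation ℂ K K}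
    (hD : Kl L D) (hD' : Kl L D') (h : ∀ i, D (t i) = D' (t i)) : D = D' := by
  have hcL : CharZero L := charZero_of_injective_algebraMap (algebraMap ℂ L).injective
  have h1 : lft L D hD = lft L D' hD' := der_ext _ ht fun i => h i
  ext f
  exact congrArg (fun D : Derivation L K K => D f) h1

/-- a transcendence basis over `L` and the dual vector fields -/
structure RFr (L : IntermediateField ℂ K) (t : Fin d → K) (u : Fin e → K)
    (Dt : Fin d → Derivation ℂ K K) (Du : Fin e → Derivation ℂ K K) : Prop where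
  bas : IsTranscendenceBasis L (Sum.elim t u)
  ct : ∀ i, Kl L (Dt i)
  cu : ∀ i, Kl L (Du i)
  tt : ∀ i j, Dt i (t j) = if i = j then 1 else 0
  tu : ∀ i j, Dt i (u j) = 0
  ut : ∀ i j, Du i (t j) = 0
  uu : ∀ i j, Du i (u j) = if i = j then 1 else 0

theorem exists_rfr {t : Fin d → K} {u : Fin e → K} (h : IsTranscendenceBasis L (Sum.elim t u)) :
    ∃ Dt Du, RFr L t u Dt Du := by
  have hcL : CharZero L := charZero_of_injective_algebraMap (algebraMap ℂ L).injective
  have h1 : ∀ i : Fin d, ∃ D : Derivation L K K, ∀ j, D (Sum.elim t u j) =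
      Sum.elim (fun j => if i = j then 1 else 0) (fun _ => 0) j :=
    fun i => exists_der _ h _
  have h2 : ∀ i : Fin e, ∃ D : Derivation L K K, ∀ j, D (Sum.elim t u j) =
      Sum.elim (fun _ => 0) (fun j => if i = j then 1 else 0) j :=
    fun i => exists_der _ h _
  choose Dt hDt using h1
  choose Du hDu using h2
  exact ⟨fun i => (Dt i).restrictScalars ℂ, fun i => (Du i).restrictScalars ℂ, h,
    fun i => Kl.res _, fun i => Kl.res _, fun i j => hDt i (Sum.inl j),
    fun i j => hDt i (Sum.inr j), fun i j => hDu i (Sum.inl j), fun i j => hDu i (Sum.inr j)⟩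

section frame

variable {t : Fin d → K} {u : Fin e → K} {Dt : Fin d → Derivation ℂ K K}
  {Du : Fin e → Derivation ℂ K K}

theorem RFr.ext (F : RFr L t u Dt Du) {D D' : Derivation ℂ K K} (hD : Kl L D) (hD' : Kl L D')
    (h1 : ∀ j, D (t j) = D' (t j)) (h2 : ∀ j, D (u j) = D' (u j)) : D = D' := by
  refine Kl.ext F.bas hD hD' fun i => ?_
  rcases i with i | i
  · exact h1 i
  · exact h2 i

theorem RFr.eq (F : RFr L t u Dt Du) (E : Derivation ℂ K K) (hE : Kl L E) (f : K) :
    E f = ∑ j, E (t j) * Dt j f + ∑ l, E (u l) * Du l f := by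
  have h : E = ∑ j, E (t j) • Dt j + ∑ l, E (u l) • Du l := by
    refine F.ext hE (Kl.add (Kl.sum F.ct) (Kl.sum F.cu)) (fun j => ?_) fun j => ?_
    · rw [Derivation.add_apply, der_sum, der_sum]
      simp only [F.tt, F.ut, mul_zero, Finset.sum_const_zero, add_zero, mul_ite, mul_one]
      simp
    · rw [Derivation.add_apply, der_sum, der_sum]
      simp only [F.tu, F.uu, mul_zero, Finset.sum_const_zero, zero_add, mul_ite, mul_one]
      simp
  conv_lhs => rw [h]
  rw [Derivation.add_apply, der_sum, der_sum]

theorem RFr.comm (F : RFr L t u Dt Du) (i : Fin e) (j : Fin d) (f : K) :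
    Du i (Dt j f) = Dt j (Du i f) := by
  have h : ⁅Du i, Dt j⁆ = 0 := by
    refine F.ext (fun f hf => ?_) (fun f _ => rfl) (fun l => ?_) fun l => ?_
    · rw [Derivation.commutator_apply, F.ct j f hf, F.cu i f hf, map_zero, map_zero, sub_zero]
    · rw [Derivation.commutator_apply, F.tt, F.ut, map_zero, sub_zero]
      split_ifs <;> simp
    · rw [Derivation.commutator_apply, F.tu, F.uu, map_zero, zero_sub]
      split_ifs <;> simp
  have h1 := congrArg (fun D : Derivation ℂ K K => D f) h
  rw [Derivation.commutator_apply] at h1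
  exact sub_eq_zero.1 h1

theorem RFr.hz (F : RFr L t u Dt Du) {f : K} (hf : Hz Du f) (j : Fin d) : Hz Du (Dt j f) := by
  intro i
  rw [F.comm, hf i, map_zero]

theorem RFr.hz_op (F : RFr L t u Dt Du) {g : Fin q → K} (hg : ∀ i, Hz Du (g i))
    (I : Letter d q) {f : K} (hf : Hz Du f) : Hz Du (op Dt g I f) := by
  classical
  rw [op_apply]
  refine Hz.div (Hz.det fun i j => ?_) (Hz.prod _ fun _ => hg _)
  have h1 : ∀ j, Hz Du (Function.update (fun j => g (I.1 j)) I.2 f j) := by
    intro j
    by_cases hj : j = I.2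
    · subst hj
      rw [Function.update_self]
      exact hf
    · rw [Function.update_of_ne hj]
      exact hg _
  refine Fin.cases ?_ (fun l => ?_) i
  · exact h1 j
  · exact F.hz (h1 j) l

theorem RFr.hz_wv (F : RFr L t u Dt Du) {g : Fin q → K} (hg : ∀ i, Hz Du (g i))
    {x : Fin (n + 1) → K} (hx : ∀ j, Hz Du (x j)) (w : List (Letter d q)) (j : Fin (n + 1)) :
    Hz Du (wv Dt g x w j) := by
  induction w with
  | nil => exact hx j
  | cons I w ih => exact F.hz_op hg I ih

theorem RFr.hz_eq (F : RFr L t u Dt Du) (E : Fin d → Derivation ℂ K K)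
    (hE : ∀ i, Kl L (E i)) {f : K} (hf : Hz Du f)
    (i : Fin d) : E i f = (∑ l, mtx t E i l • Dt l) f := by
  have h0 : ∑ l, E i (u l) * Du l f = 0 := Finset.sum_eq_zero fun l _ => by rw [hf l, mul_zero]
  rw [F.eq (E i) (hE i) f, der_sum, h0, add_zero]
  rfl

theorem RFr.bw_eq (F : RFr L t u Dt Du) (E : Fin d → Derivation ℂ K K)
    (hE : ∀ i, Kl L (E i)) {m : Fin (d + 1) → K}
    (hm : ∀ j, Hz Du (m j)) : bw E m = (mtx t E).det * bw Dt m := by
  rw [← (bwa d K).2.1 (mtx t E) Dt m]
  unfold Pool.Agent.W602.Cov.G.bw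
  congr 1
  ext i j
  refine Fin.cases ?_ (fun l => ?_) i
  · rfl
  · exact F.hz_eq E hE (hm j) l

theorem RFr.opv_eq (F : RFr L t u Dt Du) (E : Fin d → Derivation ℂ K K)
    (hE : ∀ i, Kl L (E i)) {g : Fin q → K}
    (hg : ∀ i, Hz Du (g i)) (I : Letter d q) {y : Fin (n + 1) → K} (hy : ∀ j, Hz Du (y j)) :
    opv E g I y = (mtx t E).det • opv Dt g I y := by
  classical
  funext j
  change op E g I (y j) = (mtx t E).det * op Dt g I (y j)
  rw [op_apply, op_apply, F.bw_eq E hE, mul_div_assoc]
  intro j'
  by_cases hj : j' = I.2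
  · subst hj
    rw [Function.update_self]
    exact hy j
  · rw [Function.update_of_ne hj]
    exact hg _

theorem RFr.opv_in (F : RFr L t u Dt Du) (E : Fin d → Derivation ℂ K K)
    (hE : ∀ i, Kl L (E i)) {g : Fin q → K}
    (hg : ∀ i, Hz Du (g i)) {x : Fin (n + 1) → K} (hx : ∀ j, Hz Du (x j)) (I : Letter d q)
    {k : ℕ} {y : Fin (n + 1) → K} (hy : y ∈ V Dt g x k) : opv E g I y ∈ V Dt g x (k + 1) := by
  unfold V at hy
  induction hy using Submodule.span_induction with
  | mem y hy =>
    obtain ⟨w, hw, rfl⟩ := hy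
    have hw' : w.length < k := hw
    rw [F.opv_eq E hE hg I (F.hz_wv hg hx w), ← wv_cons]
    exact Submodule.smul_mem _ _ (wv_mem Dt g x (by rw [List.length_cons]; omega))
  | zero => rw [opv_zero]; exact Submodule.zero_mem _
  | add y z _ _ hy hz => rw [opv_add]; exact Submodule.add_mem _ hy hz
  | smul c y hy0 hy =>
    rw [opv_smul]
    exact Submodule.add_mem _ (Submodule.smul_mem _ _ hy)
      (Submodule.smul_mem _ _ (V_mono Dt g x (Nat.le_succ k) hy0))

/-- words for arbitrary vector fields -/
theorem RFr.wv_eq (F : RFr L t u Dt Du) (E : Fin d → Derivation ℂ K K)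
    (hE : ∀ i, Kl L (E i)) {g : Fin q → K}
    (hg : ∀ i, Hz Du (g i)) {x : Fin (n + 1) → K} (hx : ∀ j, Hz Du (x j))
    (w : List (Letter d q)) :
    ∃ r ∈ V Dt g x w.length, wv E g x w =
      (mtx t E).det ^ w.length • wv Dt g x w + r := by
  induction w with
  | nil => exact ⟨0, Submodule.zero_mem _, by rw [wv_nil, wv_nil]; simp⟩
  | cons I w ih =>
    obtain ⟨r, hr, e⟩ := ih
    refine ⟨dl E g I ((mtx t E).det ^ w.length) • wv Dt g x w + opv E g I r, ?_, ?_⟩
    · rw [List.length_cons]
      exact Submodule.add_mem _ (Submodule.smul_mem _ _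
        (wv_mem Dt g x (Nat.lt_succ_self _))) (F.opv_in E hE hg hx I hr)
    · rw [wv_cons, e, opv_add, opv_smul, F.opv_eq E hE hg I (F.hz_wv hg hx w), wv_cons,
        List.length_cons, pow_succ]
      module

/-- the first block for arbitrary vector fields -/
theorem RFr.phi_eq (F : RFr L t u Dt Du) (ε : Fin (d + 1) ⊕ Fin k ≃ Fin (n + 1))
    (E : Fin d → Derivation ℂ K K) (hE : ∀ i, Kl L (E i)) {x : Fin (n + 1) → K}
    (hx : ∀ j, Hz Du (x j))
    (m : Fin k → Fin (n + 1) → K) : phi ε E x m = (mtx t E).det * phi ε Dt x m := by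
  rw [← phi_change]
  have h : blk E x = blk (fun i => ∑ l, mtx t E i l • Dt l) x := by
    funext i j
    refine Fin.cases ?_ (fun l => ?_) i
    · rfl
    · exact F.hz_eq E hE (hx j) l
  unfold phi
  rw [h]

/-- the determinant for arbitrary vector fields -/
theorem RFr.phi_wv_eq (F : RFr L t u Dt Du) {ε : Fin (d + 1) ⊕ Fin k ≃ Fin (n + 1)}
    (E : Fin d → Derivation ℂ K K)
    (hE : ∀ i, Kl L (E i)) {g : Fin q → K} (hg : ∀ i, Hz Du (g i)) {x : Fin (n + 1) → K}
    (hx : ∀ j, Hz Du (x j)) {S : Fin k → List (Letter d q)} (hS : MinW ε Dt g x S) :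
    phi ε E x (fun a => wv E g x (S a)) =
      (mtx t E).det ^ (1 + ∑ a, (S a).length) * phi ε Dt x (fun a => wv Dt g x (S a)) := by
  classical
  choose r hr er using fun a => F.wv_eq E hE hg hx (S a)
  obtain ⟨A, hA⟩ : ∃ A, A = (mtx t E).det := ⟨_, rfl⟩
  rw [← hA] at er
  have key : ∀ G : Finset (Fin k), phi ε Dt x (fun a =>
      if a ∈ G then A ^ (S a).length • wv Dt g x (S a) + r a else
        A ^ (S a).length • wv Dt g x (S a)) =
      phi ε Dt x (fun a => A ^ (S a).length • wv Dt g x (S a)) := by
    intro G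
    induction G using Finset.induction_on with
    | empty => simp
    | insert b G hb ih =>
      rw [← ih]
      have e1 : (fun a => if a ∈ insert b G then
          A ^ (S a).length • wv Dt g x (S a) + r a else A ^ (S a).length • wv Dt g x (S a)) =
          Function.update (fun a => if a ∈ G then A ^ (S a).length • wv Dt g x (S a) + r a else
            A ^ (S a).length • wv Dt g x (S a)) b
            (A ^ (S b).length • wv Dt g x (S b) + r b) := by
        funext i
        by_cases hi : i = b
        · subst hi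
          simp
        · simp [hi]
      rw [e1, phi_update_add]
      have e2 : Function.update (fun a => if a ∈ G then A ^ (S a).length • wv Dt g x (S a) + r a
            else A ^ (S a).length • wv Dt g x (S a)) b
            (A ^ (S b).length • wv Dt g x (S b)) = (fun a => if a ∈ G then
            A ^ (S a).length • wv Dt g x (S a) + r a else
            A ^ (S a).length • wv Dt g x (S a)) := by
        funext i
        by_cases hi : i = b
        · subst hi
          simp [hb]
        · simp [hi]
      have e3 : phi ε Dt x (Function.update (fun a => if a ∈ G then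
            A ^ (S a).length • wv Dt g x (S a) + r a else
            A ^ (S a).length • wv Dt g x (S a)) b (r b)) = 0 := by
        refine phi_low hS _ b ?_ fun a ha => ?_
        · rw [Function.update_self]
          exact hr b
        · rw [Function.update_of_ne ha]
          have h1 : A ^ (S a).length • wv Dt g x (S a) ∈ V Dt g x ((S a).length + 1) :=
            Submodule.smul_mem _ _ (wv_mem Dt g x (Nat.lt_succ_self _))
          split_ifs
          · exact Submodule.add_mem _ h1 (V_mono Dt g x (Nat.le_succ _) (hr a))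
          · exact h1
      rw [e2, e3, add_zero]
  have h1 := key Finset.univ
  simp only [Finset.mem_univ, if_true] at h1
  rw [F.phi_eq ε E hE hx, ← hA, pow_add, pow_one, mul_assoc]
  congr 1
  have h2 : (fun a => wv E g x (S a)) =
      fun a => A ^ (S a).length • wv Dt g x (S a) + r a := funext fun a => er a
  rw [h2, h1, phi_smul, Finset.prod_pow_eq_pow_sum]

/-- the constants are algebraic over `L` -/
theorem RFr.const (F : RFr L t u Dt Du) {f : K} (h1 : ∀ l, Dt l f = 0) (h2 : ∀ l, Du l f = 0) :
    IsAlgebraic L f := by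
  classical
  have hcL : CharZero L := charZero_of_injective_algebraMap (algebraMap ℂ L).injective
  by_contra htr
  have h3 : AlgebraicIndepOn L id ({f} : Set K) := by
    have h20 : AlgebraicIndependent L (fun i : ({f} : Set K) => (i : K)) := by
      rw [algebraicIndependent_singleton_iff ⟨f, rfl⟩]
      exact htr
    exact h20
  obtain ⟨s, hs, hst⟩ := exists_isTranscendenceBasis_superset h3
  obtain ⟨E, hE⟩ := exists_der (fun y : s => (y : K)) hst (fun _ => 1)
  have h4 := hE ⟨f, hs rfl⟩
  change E f = 1 at h4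
  have h5 := F.eq (E.restrictScalars ℂ) (Kl.res E) f
  change E f = _ at h5
  rw [h4] at h5
  simp only [h1, h2, mul_zero, Finset.sum_const_zero, add_zero] at h5
  exact one_ne_zero h5

end frame

end Pool.Agent.Q298.JS
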