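import Pool.Agent.Q298.JS.Rel
import Pool.Agent.Q298.EF.IsoGeo

/-!
Relative generalised Wronskians do not vanish.
-/

set_option autoImplicit false
set_option linter.unusedSectionVars false

open FF hiding phi
open Module Pool.Agent.W603.LV Pool.Agent.W602.GT Pool.Agent.W602.Cov Pool.Agent.W602.Cov.G
open Pool.Agent.W168.CG.PGR Pool.Agent.TH152.AC Pool.Agent.TH152.HY Pool.Agent.TH766.MC
open Pool.Agent.TH585.SV

namespace Pool.Agent.Q298.JS

variable {d e k n q : ℕ} {K : Type} [Field K] [Algebra ℂ K] {L : IntermediateField ℂ K}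

theorem mem_A {f : K} : f ∈ Pool.Agent.Y172.acl ℂ (L : Set K) ↔ IsAlgebraic L f := by
  rw [Pool.Agent.Y172.mem_acl, IntermediateField.adjoin_self]

/-- linear independence over a subfield implies linear independence over `ℂ` -/
theorem liC {A : IntermediateField ℂ K} {ι : Type} {x : ι → K} (h : LinearIndependent A x) :
    LinearIndependent ℂ x :=
  h.restrict_scalars (by
    intro a b hab
    have h1 : (algebraMap ℂ A a) = algebraMap ℂ A b := by
      simpa [Algebra.smul_def] using hab
    exact (algebraMap ℂ A).injective h1)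

/-- **Subspaces which are stable under the vector fields.** -/
theorem stable_topA {A : IntermediateField ℂ K} {D : Fin d → Derivation ℂ K K}
    (hconst : ∀ f : K, (∀ l, D l f = 0) → f ∈ A)
    {x : Fin (n + 1) → K} (hli : LinearIndependent A x) (W : Submodule K (Fin (n + 1) → K))
    (hx : x ∈ W) (hW : ∀ l, ∀ y ∈ W, (fun j => D l (y j)) ∈ W) : W = ⊤ := by
  classical
  by_contra hcon
  obtain ⟨f, hf0, hf⟩ := Submodule.exists_le_ker_of_lt_top W (lt_top_iff_ne_top.mpr hcon)
  have hfs : ∀ y, f y = ∑ j, f (Pi.single j 1) * y j := by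
    intro y
    rw [LinearMap.pi_apply_eq_sum_univ f y]
    refine Finset.sum_congr rfl fun j _ => ?_
    rw [smul_eq_mul, mul_comm]
    congr 2
    funext k
    simp [Pi.single_apply, eq_comm]
  have hex : ∃ N : ℕ, ∃ φ : Fin (n + 1) → K, φ ≠ 0 ∧ (∀ y ∈ W, ∑ j, φ j * y j = 0) ∧
      (Finset.univ.filter fun j => φ j ≠ 0).card = N := by
    refine ⟨_, fun j => f (Pi.single j 1), ?_, fun y hy => ?_, rfl⟩
    · intro h0
      apply hf0
      apply LinearMap.ext
      intro y
      rw [hfs y, LinearMap.zero_apply]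
      exact Finset.sum_eq_zero fun j _ => by rw [congrFun h0 j, Pi.zero_apply, zero_mul]
    · rw [← hfs y]
      exact hf hy
  obtain ⟨φ, hφ0, hφ, hφN⟩ := Nat.find_spec hex
  obtain ⟨j0, hj0⟩ := Function.ne_iff.mp hφ0
  have hj0' : φ j0 ≠ 0 := hj0
  set ψ : Fin (n + 1) → K := fun j => φ j / φ j0 with hψ
  have hψ1 : ψ j0 = 1 := div_self hj0'
  have hψW : ∀ y ∈ W, ∑ j, ψ j * y j = 0 := by
    intro y hy
    have h1 : ∑ j, ψ j * y j = (φ j0)⁻¹ * ∑ j, φ j * y j := by
      rw [Finset.mul_sum]
      refine Finset.sum_congr rfl fun j _ => ?_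
      simp only [hψ]
      field_simp
    rw [h1, hφ y hy, mul_zero]
  have hD0 : ∀ l j, D l (ψ j) = 0 := by
    intro l
    by_contra hne
    push Not at hne
    obtain ⟨j1, hj1⟩ := hne
    have h1 : (Finset.univ.filter fun j => D l (ψ j) ≠ 0).card < Nat.find hex := by
      rw [← hφN]
      apply Finset.card_lt_card
      refine ⟨fun j hj => ?_, fun hle => ?_⟩
      · rw [Finset.mem_filter] at hj ⊢
        refine ⟨Finset.mem_univ _, fun h0 => hj.2 ?_⟩
        simp only [hψ]
        rw [h0, zero_div, map_zero]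
      · have h2 := hle (Finset.mem_filter.mpr ⟨Finset.mem_univ j0, hj0'⟩)
        rw [Finset.mem_filter] at h2
        apply h2.2
        rw [hψ1, (D l).map_one_eq_zero]
    apply Nat.find_min hex h1
    refine ⟨fun j => D l (ψ j), fun h0 => hj1 (congrFun h0 j1), fun y hy => ?_, rfl⟩
    have h2 := congrArg (D l) (hψW y hy)
    rw [map_sum, map_zero] at h2
    simp only [Derivation.leibniz, smul_eq_mul] at h2
    rw [Finset.sum_add_distrib, hψW _ (hW l y hy), zero_add] at h2
    rw [← h2]
    exact Finset.sum_congr rfl fun j _ => mul_comm _ _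
  have hc : ∀ j, ψ j ∈ A := fun j => hconst (ψ j) fun l => hD0 l j
  have h1 : ∑ j, (⟨ψ j, hc j⟩ : A) • x j = 0 := by
    rw [← hψW x hx]
    exact Finset.sum_congr rfl fun j _ => rfl
  have h2 := Fintype.linearIndependent_iff.mp hli _ h1 j0
  have h3 := congrArg Subtype.val h2
  change ψ j0 = 0 at h3
  rw [hψ1] at h3
  exact one_ne_zero h3

section frame

variable {u : Fin e → K} {Dt : Fin d → Derivation ℂ K K} {Du : Fin e → Derivation ℂ K K}
  {t : Fin d → K}

/-- stable spaces of words -/
theorem RFr.top (F : RFr L t u Dt Du) {g : Fin q → K} (hg : ∀ i, Hz Du (g i))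
    {x : Fin (n + 1) → K} (hx : ∀ j, Hz Du (x j)) 
    (hli : LinearIndependent (Pool.Agent.Y172.acl ℂ (L : Set K)) x) (k : ℕ)
    (h1 : x ∈ V Dt g x k) (h2 : ∀ l, ∀ y ∈ V Dt g x k, (fun j => Dt l (y j)) ∈ V Dt g x k) :
    V Dt g x k = ⊤ := by
  classical
  refine stable_topA (D := Sum.elim Dt Du ∘ (finSumFinEquiv (m := d) (n := e)).symm)
    (fun f hf => mem_A.2 (F.const (fun l => ?_) fun l => ?_)) hli _ h1 fun l y hy => ?_
  · have := hf (finSumFinEquiv (Sum.inl l))
    rwa [Function.comp_apply, Equiv.symm_apply_apply] at this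
  · have := hf (finSumFinEquiv (Sum.inr l))
    rwa [Function.comp_apply, Equiv.symm_apply_apply] at this
  · rw [Function.comp_apply]
    rcases finSumFinEquiv.symm l with l' | l'
    · exact h2 l' y hy
    · change (fun j => Du l' (y j)) ∈ _
      unfold V at hy
      induction hy using Submodule.span_induction with
      | mem y hy =>
        obtain ⟨w, hw, rfl⟩ := hy
        have e1 : (fun j => Du l' (wv Dt g x w j)) = 0 := by
          funext j
          exact F.hz_wv hg hx w j l'
        rw [e1]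
        exact Submodule.zero_mem _
      | zero =>
        have e1 : (fun j => Du l' ((0 : Fin (n + 1) → K) j)) = 0 := by
          funext j
          exact map_zero _
        rw [e1]
        exact Submodule.zero_mem _
      | add y z hy1 hz1 hy hz =>
        have e1 : (fun j => Du l' ((y + z) j)) = (fun j => Du l' (y j)) + fun j => Du l' (z j) := by
          funext j
          exact map_add _ _ _
        rw [e1]
        exact Submodule.add_mem _ hy hz
      | smul c y hy1 hy =>
        have e1 : (fun j => Du l' ((c • y) j)) = c • (fun j => Du l' (y j)) + Du l' c • y := by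
          funext j
          change Du l' (c * y j) = c * Du l' (y j) + Du l' c * y j
          rw [(Du l').leibniz]
          simp only [smul_eq_mul]
          ring
        rw [e1]
        exact Submodule.add_mem _ (Submodule.smul_mem _ _ hy) (Submodule.smul_mem _ _ hy1)

variable {ℓ : Fin q → Form n}

/-- **The form**, for arbitrary vector fields. -/
theorem RFr.form (hℓ : ∀ i, ℓ i ≠ 0) (hspan : Submodule.span ℂ (Set.range ℓ) = ⊤)
    {x : Fin (n + 1) → K} (hliA : LinearIndependent (Pool.Agent.Y172.acl ℂ (L : Set K)) x)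
    (hdk : d + k = n)
    (σ : Fin (d + 1) → Fin (n + 1)) (hσ : x (σ 0) = 1)
    (F : RFr L (fun j => x (σ j.succ)) u Dt Du) (hx : ∀ j, Hz Du (x j)) (p : Bases ℓ → ℕ) :
    ∃ (ε : Fin (d + 1) ⊕ Fin k ≃ Fin (n + 1)) (S : Fin k → List (Letter d q)),
      2 * (1 + ∑ a, (S a).length) ≤ (k + 1) * (k + 2) ∧
      ∀ s, sg ℓ x p s ε S Dt ≠ 0 ∧ ∀ E : Fin d → Derivation ℂ K K, (∀ i, Kl L (E i)) →
        sg ℓ x p s ε S E =
        (mtx (fun j => x (σ j.succ)) E).det ^ ((1 + ∑ a, (S a).length) * (s * ∑ B, p B)) *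
          sg ℓ x p s ε S Dt := by
  classical
  have hli : LinearIndependent ℂ x := liC hliA
  have hlx : ∀ i, lf (ℓ i) x ≠ 0 := fun i => lf_ne_of_li hli (hℓ i)
  have hD : bw Dt (fun j => x (σ j)) ≠ 0 := by
    rw [Pool.Agent.W930.CG.bw_eq bwa Dt (fun j => x (σ j)) (by rw [hσ]; exact one_ne_zero)]
    have e1 : (Matrix.of fun i j : Fin d => Dt i (x (σ j.succ) / x (σ 0))) = 1 := by
      ext i j
      rw [Matrix.of_apply, hσ, div_one, F.tt i j, Matrix.one_apply]
    rw [e1, Matrix.det_one, mul_one, hσ, one_pow]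
    exact one_ne_zero
  obtain ⟨I0, hI0⟩ := exists_index hspan Dt σ hD
  have hg : ∀ i, Hz Du (lf (ℓ i) x) := fun i => Hz.lf hx (ℓ i)
  let ε : Fin (d + 1) ⊕ Fin k ≃ Fin (n + 1) :=
    finSumFinEquiv.trans (finCongr (by omega))
  obtain ⟨S, hS⟩ := exists_minW3 ε hlx hI0 (F.top hg hx hliA) (blk_li hD)
  have hne : pw ε Dt (fun i => lf (ℓ i) x) x S ≠ 0 := by
    rw [← phi_eq_pw]
    exact hS.ne
  refine ⟨ε, S, hS.le, fun s => ⟨?_, fun E hE => ?_⟩⟩
  · unfold sg
    exact div_ne_zero (pow_ne_zero _ hne) (den_ne hlx p s)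
  · have h1 : pw ε E (fun i => lf (ℓ i) x) x S =
        (mtx (fun j => x (σ j.succ)) E).det ^ (1 + ∑ a, (S a).length) *
          pw ε Dt (fun i => lf (ℓ i) x) x S := by
      rw [← phi_eq_pw, ← phi_eq_pw, F.phi_wv_eq E hE hg hx hS]
    unfold sg
    rw [h1, mul_pow, ← pow_mul, mul_div_assoc]

end frame

end Pool.Agent.Q298.JS
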