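import Pool.Agent.Q298.JS.Rel2

/-!
The relative frame of a linear system.
-/

set_option autoImplicit false
set_option linter.unusedSectionVars false

open FF hiding phi
open Module Pool.Agent.W603.LV Pool.Agent.W602.GT Pool.Agent.W602.Cov Pool.Agent.W602.Cov.G
open Pool.Agent.W168.CG.PGR Pool.Agent.TH152.AC Pool.Agent.TH152.HY Pool.Agent.TH766.MC
open Pool.Agent.TH585.SV

namespace Pool.Agent.Q298.JS

variable {d e k n q : ℕ} {K : Type} [Field K] [Algebra ℂ K] {L : IntermediateField ℂ K}

/-- a frame relative to `L` which is adapted to functions -/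
theorem rel_frame {x : Fin (n + 1) → K} (hx0 : x 0 = 1)
    (hd : Algebra.trdeg L (IntermediateField.adjoin L (Set.range x)) = d)
    (hK : Algebra.trdeg L K = (d + e : ℕ)) :
    ∃ (σ : Fin (d + 1) → Fin (n + 1)) (u : Fin e → K)
      (Dt : Fin d → Derivation ℂ K K) (Du : Fin e → Derivation ℂ K K),
      x (σ 0) = 1 ∧ RFr L (fun j => x (σ j.succ)) u Dt Du ∧
      (∀ j, Hz Du (x j)) ∧ ∀ f ∈ IntermediateField.adjoin L (Set.range x), Hz Du f := by
  classical
  obtain ⟨M, hM⟩ : ∃ M : IntermediateField L K, M = IntermediateField.adjoin L (Set.range x) :=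
    ⟨_, rfl⟩
  rw [← hM] at hd ⊢
  have hxM : ∀ j, x j ∈ M := fun j => by
    rw [hM]
    exact IntermediateField.subset_adjoin L _ ⟨j, rfl⟩
  let xM : Fin (n + 1) → M := fun j => ⟨x j, hxM j⟩
  have htop : IntermediateField.adjoin L (Set.range xM) = ⊤ := by
    rw [eq_top_iff]
    rintro z -
    have h1 : (IntermediateField.adjoin L (Set.range xM)).map M.val = M := by
      rw [IntermediateField.adjoin_map, ← Set.range_comp]
      exact hM.symm
    have h2 : (z : K) ∈ (IntermediateField.adjoin L (Set.range xM)).map M.val := by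
      rw [h1]
      exact z.2
    obtain ⟨z', hz', hzz⟩ := h2
    have h3 : z' = z := Subtype.ext hzz
    rw [← h3]
    exact hz'
  have halg0 : Algebra.IsAlgebraic (IntermediateField.adjoin L (Set.range xM)) M := by
    constructor
    intro z
    have hz : z ∈ IntermediateField.adjoin L (Set.range xM) := by
      rw [htop]
      trivial
    exact isAlgebraic_algebraMap (R := IntermediateField.adjoin L (Set.range xM))
      (⟨z, hz⟩ : IntermediateField.adjoin L (Set.range xM))
  have halg : Algebra.IsAlgebraic (Algebra.adjoin L (Set.range xM)) M := alg_adjoin halg0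
  obtain ⟨T, hTx, hT⟩ := exists_isTranscendenceBasis_subset (R := L) (Set.range xM)
  have hTcard : Cardinal.mk T = d := by
    rw [hT.cardinalMk_eq_trdeg, hd]
  have hTfin : Finite T := by
    rw [← Cardinal.lt_aleph0_iff_finite, hTcard]
    exact Cardinal.natCast_lt_aleph0
  let _ : Fintype T := Fintype.ofFinite T
  have hTc : Fintype.card T = d := by
    have := hTcard
    rw [Cardinal.mk_fintype] at this
    exact_mod_cast this
  choose c hc using fun s : T => hTx s.2
  let ν : Fin d ≃ T := (Fintype.equivFinOfCardEq hTc).symm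
  have hTL : IsTranscendenceBasis L (fun j : Fin d => xM (c (ν j))) := by
    have h1 : (fun j : Fin d => xM (c (ν j))) = fun j => ((ν j : T) : M) :=
      funext fun j => hc (ν j)
    rw [h1]
    exact hT.comp_equiv ν
  -- the fibres
  obtain ⟨U, hU⟩ := exists_isTranscendenceBasis M K
  have hTU := IsTranscendenceBasis.sumElim_comp hTL hU
  have hUcard : Cardinal.mk (U ⊕ Fin d) = (d + e : ℕ) := by
    rw [hTU.cardinalMk_eq_trdeg, hK]
  have hUfin' : Finite (U ⊕ Fin d) := by
    rw [← Cardinal.lt_aleph0_iff_finite, hUcard]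
    exact Cardinal.natCast_lt_aleph0
  have hUfin : Finite U := Finite.of_injective (Sum.inl : U → U ⊕ Fin d) Sum.inl_injective
  let _ : Fintype U := Fintype.ofFinite U
  have hUc : Fintype.card U = e := by
    rw [Cardinal.mk_fintype, Fintype.card_sum, Fintype.card_fin] at hUcard
    have h1 : Fintype.card U + d = d + e := by exact_mod_cast hUcard
    omega
  let μ : Fin e ≃ U := (Fintype.equivFinOfCardEq hUc).symm
  have hbas : IsTranscendenceBasis L
      (Sum.elim (fun j : Fin d => x (c (ν j))) (fun i : Fin e => ((μ i : U) : K))) := by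
    have h1 := hTU.comp_equiv ((Equiv.sumComm (Fin d) (Fin e)).trans (μ.sumCongr (Equiv.refl _)))
    have h2 : (Sum.elim (fun j : Fin d => x (c (ν j))) (fun i : Fin e => ((μ i : U) : K))) =
        (Sum.elim (fun a : U => (a : K)) (algebraMap M K ∘ fun j : Fin d => xM (c (ν j)))) ∘
          ((Equiv.sumComm (Fin d) (Fin e)).trans (μ.sumCongr (Equiv.refl _))) := by
      funext a
      rcases a with a | a
      · rfl
      · rfl
    rw [h2]
    exact h1
  obtain ⟨Dt, Du, F⟩ := exists_rfr hbas
  have hcM : CharZero M := charZero_of_injective_algebraMap (algebraMap ℂ M).injective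
  have i1 : IsScalarTower ℂ M K := IsScalarTower.of_algebraMap_eq fun _ => rfl
  have hHz : ∀ f ∈ M, Hz Du f := by
    intro f hf i
    obtain ⟨D', hD'⟩ := exists_der (L := M) (fun a : U => (a : K)) hU
      (fun a => Du i (a : K))
    have hkl : Kl L (D'.restrictScalars ℂ) := by
      intro z hz
      change D' z = 0
      have h2 : z = algebraMap M K (algebraMap L M ⟨z, hz⟩) := rfl
      rw [h2, D'.map_algebraMap]
    have h1 : Du i = D'.restrictScalars ℂ := by
      refine F.ext (F.cu i) hkl (fun j => ?_) fun j => ?_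
      · rw [F.ut]
        change (0 : K) = D' (x (c (ν j)))
        have h2 : x (c (ν j)) = algebraMap M K (xM (c (ν j))) := rfl
        rw [h2, D'.map_algebraMap]
      · change Du i ((μ j : U) : K) = D' ((μ j : U) : K)
        rw [hD']
    rw [h1]
    change D' f = 0
    have h2 : f = algebraMap M K ⟨f, hf⟩ := rfl
    rw [h2, D'.map_algebraMap]
  exact ⟨Fin.cons 0 fun j => c (ν j), fun i => ((μ i : U) : K), Dt, Du, hx0, F,
    fun j => hHz _ (hxM j), hHz⟩

end Pool.Agent.Q298.JS
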