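import Pool.Agent.Q298.JS.Rel4

/-!
Forms along the fibres, relative to a subfield.
-/

set_option autoImplicit false
set_option linter.unusedSectionVars false

open FF hiding phi
open Module Pool.Agent.W603.LV Pool.Agent.W602.GT Pool.Agent.W602.Cov Pool.Agent.W602.Cov.G
open Pool.Agent.TH152.AC hiding pf
open Pool.Agent.W168.CG.PGR Pool.Agent.TH152.HY Pool.Agent.TH766.MC
open Pool.Agent.TH585.SV

namespace Pool.Agent.Q298.JS

variable {N d e κ lam : ℕ} {K : Type} [Field K] [Algebra ℂ K] {L : IntermediateField ℂ K}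
  {t : Fin d → K} {u : Fin e → K} {Dt : Fin d → Derivation ℂ K K}
  {Du : Fin e → Derivation ℂ K K}

/-- the determinant of the frame -/
theorem RFr.big_frame (F : RFr L t u Dt Du) :
    (big t u (fun i => Sum.elim Dt Du (finSumFinEquiv.symm i))).det = 1 := by
  have h1 : big t u (fun i => Sum.elim Dt Du (finSumFinEquiv.symm i)) = 1 := by
    ext a b
    change (Sum.elim Dt Du (finSumFinEquiv.symm (finSumFinEquiv a))) (Sum.elim t u b) = _
    rw [Equiv.symm_apply_apply, Matrix.one_apply]
    rcases a with a | a <;> rcases b with b | b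
    · rw [Sum.elim_inl, Sum.elim_inl, F.tt]
      simp
    · rw [Sum.elim_inl, Sum.elim_inr, F.tu]
      simp
    · rw [Sum.elim_inr, Sum.elim_inl, F.ut]
      simp
    · rw [Sum.elim_inr, Sum.elim_inr, F.uu]
      simp
  rw [h1, Matrix.det_one]

/-- nonzero minors -/
theorem RFr.exists_minor (F : RFr L t u Dt Du) {D : Fin (d + e) → Derivation ℂ K K}
    (hDL : ∀ i, Kl L (D i)) (hD : (big t u D).det ≠ 0) : ∃ s : Fin d → Fin (d + e), (mtx t (fun i => D (s i))).det ≠ 0 := by
  classical
  by_contra hcon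
  push Not at hcon
  -- the frame in terms of `D`
  obtain ⟨C, hC⟩ : ∃ C : Matrix (Fin d ⊕ Fin e) (Fin d ⊕ Fin e) K, C = (big t u D)⁻¹ := ⟨_, rfl⟩
  have hCB : C * big t u D = 1 := by
    rw [hC]
    exact Matrix.nonsing_inv_mul _ (isUnit_iff_ne_zero.2 hD)
  have h1 : ∀ i : Fin d, Dt i = ∑ a, C (Sum.inl i) (finSumFinEquiv.symm a) • D a := by
    intro i
    refine F.ext (F.ct i) (Kl.sum hDL) (fun j => ?_) fun j => ?_
    · rw [der_sum, F.tt, ← Equiv.sum_comp finSumFinEquiv]
      have h2 := congrFun (congrFun hCB (Sum.inl i)) (Sum.inl j)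
      rw [Matrix.mul_apply, Matrix.one_apply] at h2
      simp only [Equiv.symm_apply_apply]
      rw [show (if i = j then (1 : K) else 0) = if (Sum.inl i : Fin d ⊕ Fin e) = Sum.inl j then 1
        else 0 by simp, ← h2]
      rfl
    · rw [der_sum, F.tu, ← Equiv.sum_comp finSumFinEquiv]
      have h2 := congrFun (congrFun hCB (Sum.inl i)) (Sum.inr j)
      rw [Matrix.mul_apply, Matrix.one_apply] at h2
      simp only [Equiv.symm_apply_apply]
      rw [show (0 : K) = if (Sum.inl i : Fin d ⊕ Fin e) = Sum.inr j then 1 else 0 by simp, ← h2]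
      rfl
  have h2 : dform t Dt = 1 := by
    rw [dform_apply]
    have h3 : mtx t Dt = 1 := by
      ext i j
      change Dt i (t j) = _
      rw [F.tt, Matrix.one_apply]
    rw [h3, Matrix.det_one]
  have h3 : dform t Dt = 0 := by
    have h4 : Dt = fun i => ∑ a, C (Sum.inl i) (finSumFinEquiv.symm a) • D a := funext h1
    rw [h4]
    have h5 := (dform t).toMultilinearMap.map_sum
      (fun (i : Fin d) (a : Fin (d + e)) => C (Sum.inl i) (finSumFinEquiv.symm a) • D a)
    change dform t (fun i => ∑ a, C (Sum.inl i) (finSumFinEquiv.symm a) • D a) = _ at h5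
    rw [h5]
    refine Finset.sum_eq_zero fun r _ => ?_
    rw [MultilinearMap.map_smul_univ]
    change _ • dform t (fun i => D (r i)) = 0
    rw [dform_apply, hcon, smul_zero]
  rw [h2] at h3
  exact one_ne_zero h3

/-- **Adapted regular vector fields.** -/
theorem RFr.split (F : RFr L t u Dt Du) {P : Place ℂ K} {D : Fin (d + e) → Derivation ℂ K K}
    (hDr : ∀ i, DerReg P (D i)) (hDL : ∀ i, Kl L (D i)) (hD : (big t u D).det ≠ 0) :
    ∃ (E : Fin d → Derivation ℂ K K) (G : Fin e → Derivation ℂ K K), (∀ i, DerReg P (E i)) ∧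
      (∀ i, DerReg P (G i)) ∧ (∀ i, Kl L (E i)) ∧ (∀ i, Kl L (G i)) ∧ (∀ i j, G i (t j) = 0) ∧
      ((big t u D).det = (mtx t E).det * (mtx u G).det ∨
        (big t u D).det = -((mtx t E).det * (mtx u G).det)) := by
  classical
  -- a minor of minimal order
  obtain ⟨s1, hs1⟩ := F.exists_minor hDL hD
  obtain ⟨s, hs, hmin⟩ := Finset.exists_min_image
    (Finset.univ.filter fun s : Fin d → Fin (d + e) => (mtx t (fun i => D (s i))).det ≠ 0)
    (fun s => P.ord (mtx t (fun i => D (s i))).det) ⟨s1, by simpa using hs1⟩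
  have hs0 : (mtx t (fun i => D (s i))).det ≠ 0 := (Finset.mem_filter.1 hs).2
  have hinj : Function.Injective s := by
    intro a b hab
    by_contra hne
    apply hs0
    refine Matrix.det_zero_of_row_eq hne ?_
    funext l
    change D (s a) (t l) = D (s b) (t l)
    rw [hab]
  -- the complement
  have hcard : Fintype.card ((Set.range s)ᶜ : Set (Fin (d + e))) = e := by
    rw [Fintype.card_compl_set, Fintype.card_fin, Set.card_range_of_injective hinj,
      Fintype.card_fin]
    omega
  let ρ : Fin d ⊕ Fin e ≃ Fin (d + e) :=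
    ((Equiv.ofInjective s hinj).sumCongr (Fintype.equivFinOfCardEq hcard).symm).trans
      (Equiv.Set.sumCompl (Set.range s))
  have hρl : ∀ i, ρ (Sum.inl i) = s i := fun i => rfl
  obtain ⟨r, hr⟩ : ∃ r : Fin e → Fin (d + e), ∀ i, r i = ρ (Sum.inr i) := ⟨_, fun _ => rfl⟩
  obtain ⟨c, hc⟩ : ∃ c : Fin e → Fin d → K, ∀ j l, c j l =
      (mtx t (fun i => D (Function.update s l (r j) i))).det / (mtx t (fun i => D (s i))).det :=
    ⟨_, fun _ _ => rfl⟩
  have hcreg : ∀ j l, Ge P 0 (c j l) := by
    intro j l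
    rw [hc]
    by_cases h0 : (mtx t (fun i => D (Function.update s l (r j) i))).det = 0
    · left
      rw [h0, zero_div]
    · right
      rw [P.ord_div h0 hs0]
      have := hmin (Function.update s l (r j)) (by simpa using h0)
      linarith
  have hcr : ∀ j m, D (r j) (t m) = ∑ l, c j l * D (s l) (t m) := by
    intro j m
    have h1 := Matrix.mulVec_cramer (mtx t (fun i => D (s i))).transpose
      (fun m => D (r j) (t m))
    have h2 := congrFun h1 m
    rw [Matrix.det_transpose] at h2
    have h3 : ((mtx t (fun i => D (s i))).transpose.mulVec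
        ((mtx t (fun i => D (s i))).transpose.cramer (fun m => D (r j) (t m)))) m =
        ∑ l, D (s l) (t m) * (mtx t (fun i => D (Function.update s l (r j) i))).det := by
      change ∑ l, D (s l) (t m) * _ = _
      refine Finset.sum_congr rfl fun l _ => ?_
      rw [Matrix.cramer_transpose_apply]
      congr 2
      ext i m'
      by_cases hi : i = l
      · subst hi
        rw [Matrix.updateRow_self]
        change _ = D (Function.update s i (r j) i) (t m')
        rw [Function.update_self]
      · rw [Matrix.updateRow_ne hi]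
        change D (s i) (t m') = D (Function.update s l (r j) i) (t m')
        rw [Function.update_of_ne hi]
    rw [h3] at h2
    change _ = (mtx t (fun i => D (s i))).det * D (r j) (t m) at h2
    have h4 : D (r j) (t m) = (∑ l, D (s l) (t m) *
        (mtx t (fun i => D (Function.update s l (r j) i))).det) /
          (mtx t (fun i => D (s i))).det := by
      rw [h2, mul_div_cancel_left₀ _ hs0]
    rw [h4, Finset.sum_div]
    refine Finset.sum_congr rfl fun l _ => ?_
    rw [hc]
    ring
  obtain ⟨G, hG⟩ : ∃ G : Fin e → Derivation ℂ K K, ∀ j, G j = D (r j) - ∑ l, c j l • D (s l) :=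
    ⟨_, fun _ => rfl⟩
  have hGa : ∀ j f, G j f = D (r j) f - ∑ l, c j l * D (s l) f := by
    intro j f
    rw [hG, Derivation.sub_apply, der_sum]
  refine ⟨fun i => D (s i), G, fun i => hDr _, fun j => ?_, fun i => hDL _, fun j => ?_,
    fun j m => ?_, ?_⟩
  · intro f hf
    rw [hGa, reg_iff_ge]
    refine Ge.sub (hDr _ f hf) (Ge.sum _ _ fun l _ => ?_)
    have := (hcreg j l).mul (hDr (s l) f hf)
    rwa [zero_add] at this
  · rw [hG]
    exact Kl.sub (hDL _) (Kl.sum fun l => hDL _)
  · rw [hGa, hcr, sub_self]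
  · -- the determinant
    have h1 : (Matrix.of fun a b : Fin d ⊕ Fin e => D (ρ a) (Sum.elim t u b)) =
        (big t u D).submatrix (ρ.trans finSumFinEquiv.symm) id := by
      ext a b
      change D (ρ a) (Sum.elim t u b) =
        D (finSumFinEquiv (finSumFinEquiv.symm (ρ a))) (Sum.elim t u b)
      rw [Equiv.apply_symm_apply]
    have h2 : (Matrix.of fun a b : Fin d ⊕ Fin e => D (ρ a) (Sum.elim t u b)) =
        Matrix.fromBlocks 1 0 (Matrix.of c) 1 * Matrix.fromBlocks (mtx t (fun i => D (s i)))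
          (Matrix.of fun (i : Fin d) (l : Fin e) => D (s i) (u l)) 0 (mtx u G) := by
      rw [Matrix.fromBlocks_multiply, Matrix.one_mul, Matrix.zero_mul, add_zero, Matrix.one_mul,
        Matrix.zero_mul, add_zero, Matrix.one_mul, Matrix.one_mul, add_zero]
      ext a b
      rcases a with a | a <;> rcases b with b | b
      · rfl
      · rfl
      · change D (ρ (Sum.inr a)) (t b) = (Matrix.of c * mtx t (fun i => D (s i))) a b
        rw [← hr, hcr, Matrix.mul_apply]
        rfl
      · change D (ρ (Sum.inr a)) (u b) =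
          (Matrix.of c * Matrix.of fun (i : Fin d) (l : Fin e) => D (s i) (u l)) a b + G a (u b)
        rw [← hr, hGa, Matrix.mul_apply]
        change D (r a) (u b) = ∑ l, c a l * D (s l) (u b) + _
        ring
    have h3 := congrArg Matrix.det h2
    rw [Matrix.det_mul, Matrix.det_fromBlocks_zero₁₂, Matrix.det_fromBlocks_zero₂₁,
      Matrix.det_one, Matrix.det_one, one_mul, one_mul, h1, Matrix.det_permute] at h3
    rcases Int.units_eq_one_or (Equiv.Perm.sign (ρ.trans finSumFinEquiv.symm)) with h4 | h4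
    · left
      rw [h4] at h3
      simpa using h3
    · right
      rw [h4] at h3
      rw [← h3]
      simp

/-- vertical vector fields are constant on the subfield -/
theorem RFr.vert (F : RFr L t u Dt Du) {L' : IntermediateField ℂ K} (hL : ∀ f ∈ L', Hz Du f)
    {G : Derivation ℂ K K} (hGL : Kl L G) (hG : ∀ j, G (t j) = 0) : ∀ f ∈ L', G f = 0 := by
  intro f hf
  rw [F.eq G hGL f]
  simp only [hG, zero_mul, Finset.sum_const_zero, zero_add]
  exact Finset.sum_eq_zero fun l _ => by rw [hL f hf l, mul_zero]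

/-- the pluricanonical form -/
noncomputable def pfL (L : IntermediateField ℂ K) (t : Fin d → K) (u : Fin e → K) (M m : ℕ) (g : K)
    (D : Fin (d + e) → Derivation L K K) : K := pf t u M m g (fun i => (D i).restrictScalars ℂ)

theorem pfL_pluri (t : Fin d → K) (u : Fin e → K) (M m : ℕ) (g : K) :
    IsPluri (M * m) (pfL L t u M m g) := by
  intro A D
  have h1 : (fun i => (∑ j, A i j • D j).restrictScalars ℂ) =
      fun i => ∑ j, A i j • (D j).restrictScalars ℂ := by
    funext i
    ext f
    change (∑ j, A i j • D j) f = (∑ j, A i j • (D j).restrictScalars ℂ) f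
    rw [Pool.Agent.W308.PG.YLOC.der_sum_apply, der_sum]
    rfl
  unfold pfL
  rw [h1]
  exact pf_pluri t u M m g A _

/-- **Pairs with forms along the fibres.** -/
theorem RFr.pairs (F : RFr L t u Dt Du) {L' : IntermediateField ℂ K}
    (hLL : L ≤ L') (hL : ∀ f ∈ L', Hz Du f) (htL : ∀ j, t j ∈ L') {X : Set (Place ℂ K)} {δ₁ δ₂ δ : Place ℂ K → ℝ}
    (hδ : ∀ P ∈ X, δ₁ P + δ₂ P ≤ δ P) {m : ℕ} (hm : 0 < m)
    {θ : Fin (lam + 1) → (Fin e → Derivation L' K K) → K} (hθ : ∀ b, IsPluri m (θ b))
    (hreg : ∀ P ∈ X, Divisorial N P → ∀ G : Fin e → Derivation L' K K,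
      (∀ i f, P.Reg f → P.Reg (G i f)) → ∀ b, θ b G = 0 ∨ -(m * δ₂ P) ≤ (P.ord (θ b G) : ℝ))
    (hne : ∃ G, θ 0 G ≠ 0 ∧ AlgebraicIndependent L' (fun i : Fin lam => θ i.succ G / θ 0 G))
    {M : ℕ} (hM : 0 < M) {f : K} (hf : f ≠ 0) {w : Fin (κ + 1) → K} (hw0 : w 0 = 1)
    (hw : AlgebraicIndependent L (fun i : Fin κ => w i.succ)) (hwL : ∀ j, w j ∈ L')
    (hest : ∀ P ∈ X, Divisorial N P → ∀ E : Fin d → Derivation ℂ K K,
      (∀ i, DerReg P (E i)) → (∀ i, Kl L (E i)) → ∀ a, ∃ c' : ℤ,
        Ge P c' ((mtx t E).det ^ M * (f * w a)) ∧ -(M * δ₁ P) ≤ (c' : ℝ)) :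
    ∃ ω : Fin (κ + lam + 1) → (Fin (d + e) → Derivation L K K) → K,
      (∀ j, FibSec N (M * m) X δ L (ω j)) ∧
      ∃ D, ω 0 D ≠ 0 ∧
        AlgebraicIndependent L (fun i : Fin (κ + lam) => ω i.succ D / ω 0 D) := by
  classical
  -- the vertical frame
  obtain ⟨Dv, hDv⟩ : ∃ Dv : Fin e → Derivation L' K K, ∀ l f, Dv l f = Du l f :=
    ⟨fun l => lft L' (Du l) (fun f hf => hL f hf l), fun _ _ => rfl⟩
  have hall : ∀ G : Fin e → Derivation L' K K, ∀ b,
      θ b G = (Matrix.of fun i l => G i (u l) : Matrix (Fin e) (Fin e) K).det ^ m * θ b Dv := by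
    intro G b
    have h1 : G = fun i => ∑ l, (Matrix.of fun i l => G i (u l) : Matrix (Fin e) (Fin e) K) i l •
        Dv l := by
      funext i
      ext f
      have h2 := F.eq ((G i).restrictScalars ℂ) (fun z hz => Kl.res (G i) z (hLL hz)) f
      change G i f = ∑ j, G i (t j) * Dt j f + ∑ l, G i (u l) * Du l f at h2
      have h3 : ∀ j, G i (t j) = 0 := by
        intro j
        have h4 : t j = algebraMap L' K ⟨t j, htL j⟩ := rfl
        rw [h4]
        exact (G i).map_algebraMap _
      have h5 : (∑ l, (Matrix.of fun i l => G i (u l) : Matrix (Fin e) (Fin e) K) i l • Dv l) f =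
          ∑ l, G i (u l) * Du l f := by
        rw [← Derivation.coeFnAddMonoidHom_apply, map_sum, Finset.sum_apply]
        refine Finset.sum_congr rfl fun l _ => ?_
        change G i (u l) * Dv l f = _
        rw [hDv]
      rw [h5, h2]
      simp only [h3, zero_mul, Finset.sum_const_zero, zero_add]
    conv_lhs => rw [h1]
    exact hθ b _ _
  obtain ⟨G0, hG0, hind⟩ := hne
  have hdet0 : (Matrix.of fun i l => G0 i (u l) : Matrix (Fin e) (Fin e) K).det ^ m ≠ 0 := by
    intro h0
    apply hG0
    rw [hall, h0, zero_mul]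
  have hθ0 : θ 0 Dv ≠ 0 := by
    intro h0
    apply hG0
    rw [hall, h0, mul_zero]
  have hind' : AlgebraicIndependent L' (fun i : Fin lam => θ i.succ Dv / θ 0 Dv) := by
    have e1 : (fun i : Fin lam => θ i.succ G0 / θ 0 G0) =
        fun i : Fin lam => θ i.succ Dv / θ 0 Dv := by
      funext i
      rw [hall G0 i.succ, hall G0 0, mul_div_mul_left _ _ hdet0]
    rwa [e1] at hind
  -- the sections
  obtain ⟨g, hg⟩ : ∃ g : Fin (κ + 1) → Fin (lam + 1) → K, ∀ a b, g a b =
      f ^ m * w a * (θ 0 Dv ^ (M - 1) * θ b Dv) := ⟨_, fun _ _ => rfl⟩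
  have hsec : ∀ a b, FibSec N (M * m) X δ L (pfL L t u M m (g a b)) := by
    intro a b
    refine ⟨pfL_pluri t u M m _, fun P hPX hPd D' hD' => ?_⟩
    obtain ⟨D, hDD⟩ : ∃ D : Fin (d + e) → Derivation ℂ K K, D = fun i =>
      (D' i).restrictScalars ℂ := ⟨_, rfl⟩
    have hD : ∀ i, DerReg P (D i) := by
      rw [hDD]
      exact hD'
    have hDL : ∀ i, Kl L (D i) := by
      rw [hDD]
      exact fun i => Kl.res _
    have hpf : ∀ z, pfL L t u M m z D' = pf t u M m z D := by
      intro z
      rw [hDD]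
      rfl
    rw [hpf]
    by_cases h0 : (big t u D).det = 0
    · left
      unfold pf
      rw [h0, zero_pow (Nat.mul_pos hM hm).ne', mul_zero]
    obtain ⟨E, G, hE, hG, hEL, hGL0, hGt, hdet⟩ := F.split hD hDL h0
    have hGL : ∀ i, ∀ f ∈ L', G i f = 0 := fun i => F.vert hL (hGL0 i) (hGt i)
    obtain ⟨Gv, hGv⟩ : ∃ Gv : Fin e → Derivation L' K K, ∀ l f, Gv l f = G l f :=
      ⟨fun l => lft L' (G l) (hGL l), fun _ _ => rfl⟩
    have h1 : ∀ b, GeR P (-(m * δ₂ P)) ((mtx u G).det ^ m * θ b Dv) := by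
      intro b
      have h2 := hreg P hPX hPd Gv (fun i f hf => by rw [hGv]; exact hG i f hf) b
      have h3 : θ b Gv = (mtx u G).det ^ m * θ b Dv := by
        rw [hall]
        congr 3
        ext i l
        exact hGv i (u l)
      rw [h3] at h2
      exact h2
    have h2 : ∀ a, GeR P (-(M * δ₁ P)) ((mtx t E).det ^ M * (f * w a)) := by
      intro a
      obtain ⟨c', h3, h4⟩ := hest P hPX hPd E hE hEL a
      rcases h3 with h3 | h3
      · exact Or.inl h3
      · right
        have : (c' : ℝ) ≤ P.ord ((mtx t E).det ^ M * (f * w a)) := by exact_mod_cast h3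
        linarith
    have h3 := (((h2 0).pow (m - 1)).mul (h2 a)).mul (((h1 0).pow (M - 1)).mul (h1 b))
    rw [hw0, mul_one] at h3
    have e1 : ((mtx t E).det ^ M * f) ^ (m - 1) * ((mtx t E).det ^ M * (f * w a)) *
        (((mtx u G).det ^ m * θ 0 Dv) ^ (M - 1) * ((mtx u G).det ^ m * θ b Dv)) =
        g a b * ((mtx t E).det * (mtx u G).det) ^ (M * m) := by
      rw [hg]
      obtain ⟨m', rfl⟩ := Nat.exists_eq_succ_of_ne_zero hm.ne'
      obtain ⟨M', rfl⟩ := Nat.exists_eq_succ_of_ne_zero hM.ne'
      simp only [Nat.succ_eq_add_one, Nat.add_sub_cancel]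
      have e2 : (mtx t E).det ^ ((M' + 1) * (m' + 1)) =
          ((mtx t E).det ^ (M' + 1)) ^ m' * (mtx t E).det ^ (M' + 1) := by
        rw [← pow_mul, ← pow_add]
        congr 1
      have e3 : (mtx u G).det ^ ((M' + 1) * (m' + 1)) =
          ((mtx u G).det ^ (m' + 1)) ^ M' * (mtx u G).det ^ (m' + 1) := by
        rw [← pow_mul, ← pow_add]
        congr 1
        ring
      rw [mul_pow ((mtx t E).det), e2, e3, mul_pow, mul_pow, pow_succ f]
      ring
    rw [e1] at h3
    have h4 : GeR P (-((M * m : ℕ) * δ P)) (g a b * ((mtx t E).det * (mtx u G).det) ^ (M * m)) := by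
      refine h3.mono ?_
      have hM1 : ((M - 1 : ℕ) : ℝ) = M - 1 := by
        rw [Nat.cast_sub hM]
        simp
      have hm1 : ((m - 1 : ℕ) : ℝ) = m - 1 := by
        rw [Nat.cast_sub hm]
        simp
      rw [hM1, hm1]
      have h5 := hδ P hPX
      have h6 : (0 : ℝ) ≤ M * m := by positivity
      have h7 := mul_le_mul_of_nonneg_left h5 h6
      push_cast
      nlinarith
    change GeR P (-((M * m : ℕ) * δ P)) (pf t u M m (g a b) D)
    unfold pf
    rcases hdet with h5 | h5
    · rw [h5]
      exact h4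
    · rw [h5]
      rcases Nat.even_or_odd (M * m) with h6 | h6
      · rw [h6.neg_pow]
        exact h4
      · rw [h6.neg_pow, mul_neg]
        exact h4.neg
  have hg00 : g 0 0 ≠ 0 := by
    rw [hg, hw0]
    exact mul_ne_zero (mul_ne_zero (pow_ne_zero _ hf) one_ne_zero)
      (mul_ne_zero (pow_ne_zero _ hθ0) hθ0)
  obtain ⟨D0, hD0⟩ : ∃ D0 : Fin (d + e) → Derivation L K K,
      (big t u (fun i => (D0 i).restrictScalars ℂ)).det = 1 := by
    have h1 : ∀ i, Kl L (Sum.elim Dt Du ((finSumFinEquiv (m := d) (n := e)).symm i)) := by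
      intro i
      rcases (finSumFinEquiv (m := d) (n := e)).symm i with a | a
      · exact F.ct a
      · exact F.cu a
    refine ⟨fun i => lft L _ (h1 i), ?_⟩
    have h2 : (fun i => (lft L _ (h1 i)).restrictScalars ℂ) =
        fun i => Sum.elim Dt Du ((finSumFinEquiv (m := d) (n := e)).symm i) := by
      funext i
      ext f
      rfl
    rw [h2]
    exact F.big_frame
  have hval : ∀ z : K, pfL L t u M m z D0 = z := by
    intro z
    unfold pfL pf
    rw [hD0, one_pow, mul_one]
  refine ⟨Fin.cons (pfL L t u M m (g 0 0)) fun i => Sum.elim (fun i => pfL L t u M m (g i.succ 0))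
    (fun i => pfL L t u M m (g 0 i.succ)) (finSumFinEquiv.symm i), fun j => ?_, D0, ?_, ?_⟩
  · refine Fin.cases ?_ (fun i => ?_) j
    · exact hsec 0 0
    · rw [Fin.cons_succ]
      rcases finSumFinEquiv.symm i with i | i
      · exact hsec _ _
      · exact hsec _ _
  · rw [Fin.cons_zero, hval]
    exact hg00
  · let _ : Algebra L L' := (IntermediateField.inclusion hLL).toRingHom.toAlgebra
    have i1 : IsScalarTower L L' K := IsScalarTower.of_algebraMap_eq fun _ => rfl
    have hx : AlgebraicIndependent L (fun i : Fin κ => (⟨w i.succ, hwL i.succ⟩ : L')) :=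
      AlgebraicIndependent.of_comp (IsScalarTower.toAlgHom L L' K) hw
    have h1 := hx.sumElim_comp hind'
    have h2 := h1.comp (fun i : Fin (κ + lam) => (finSumFinEquiv.symm i).swap)
      (Sum.swap_leftInverse.injective.comp finSumFinEquiv.symm.injective)
    convert h2 using 1
    funext i
    rw [Fin.cons_succ, Fin.cons_zero, hval, Function.comp_apply]
    rcases finSumFinEquiv.symm i with i | i
    · change pfL L t u M m (g i.succ 0) D0 / g 0 0 = w i.succ
      rw [hval, hg, hg, hw0]
      have := pow_ne_zero m hf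
      field_simp
    · change pfL L t u M m (g 0 i.succ) D0 / g 0 0 = θ i.succ Dv / θ 0 Dv
      rw [hval, hg, hg, hw0]
      have := pow_ne_zero m hf
      have := pow_ne_zero (M - 1) hθ0
      field_simp

end Pool.Agent.Q298.JS
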