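import Pool.Agent.Q298.JS.Rel5

/-!
One linear system, relative to a subfield: forms along the fibres of the smaller fibration from
forms along the fibres of the larger one.
-/

set_option autoImplicit false
set_option linter.unusedSectionVars false

open FF hiding phi
open Module Pool.Agent.W603.LV Pool.Agent.W602.GT Pool.Agent.W602.Cov Pool.Agent.W602.Cov.G
open Pool.Agent.TH152.AC hiding pf
open Pool.Agent.W168.CG.PGR Pool.Agent.TH152.HY Pool.Agent.TH766.MC
open Pool.Agent.TH585.SV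

namespace Pool.Agent.Q298.JS

variable {N d e k q lam : ℕ} {K : Type} [Field K] [Algebra ℂ K]

/-- the transcendence degree over an intermediate field -/
theorem trdeg_over {L : IntermediateField ℂ K} {a b : ℕ} (hL : Algebra.trdeg ℂ L = a)
    {F : Type} [Field F] [Algebra ℂ F] [Algebra L F] [IsScalarTower ℂ L F]
    (hF : Algebra.trdeg ℂ F = (a + b : ℕ)) : Algebra.trdeg L F = b := by
  have h1 := _root_.trdeg_add_eq ℂ L (A := F)
  rw [hL, hF] at h1
  push_cast at h1
  exact Cardinal.eq_of_add_eq_add_left h1 Cardinal.natCast_lt_aleph0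

/-- **One linear system relative to a subfield.** -/
theorem lin_stage (hd : 1 ≤ d) {L L' : IntermediateField ℂ K} {V : Submodule ℂ K}
    (hLV : L' = L ⊔ rf V) {D : ℕ} (hL : Algebra.trdeg ℂ L = D)
    (hL' : Algebra.trdeg ℂ L' = (D + d : ℕ)) (hK : Algebra.trdeg ℂ K = (D + (d + e) : ℕ))
    (hn : Module.finrank ℂ V = d + k + 1)
    (hA : Module.finrank (Pool.Agent.Y172.acl ℂ (L : Set K))
      (Submodule.span (Pool.Agent.Y172.acl ℂ (L : Set K)) (V : Set K)) = d + k + 1)
    {φ : Fin q → K} (hφ0 : ∀ i, φ i ≠ 0) (hφ : Submodule.span ℂ (Set.range φ) = V)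
    (hγ : ¬ ∃ V1 V2 : Submodule ℂ K, V1 ≠ ⊥ ∧ V2 ≠ ⊥ ∧ Disjoint V1 V2 ∧ V1 ⊔ V2 = V ∧
      ∀ i, φ i ∈ V1 ∨ φ i ∈ V2)
    {R : ℕ} (hR : R = d + k + 2 ∨
      ((∃ τ : Fin (d + k + 3) → Fin q, ∀ i j, i ≠ j → ∀ t : ℂ, φ (τ i) ≠ t • φ (τ j)) ∧
        R = d + k + 1))
    (X : Set (Place ℂ K)) (δ₁ δ₂ δ : Place ℂ K → ℝ) (hδ₁ : ∀ P ∈ X, 0 ≤ δ₁ P)
    (hδ : ∀ P ∈ X, δ₁ P + δ₂ P ≤ δ P) {s : ℝ}
    (hs : (R : ℝ) * ((k + 1) * (k + 2)) < 2 * s)
    (h : ∀ P ∈ X, Divisorial N P → ∀ a : ℤ, (∀ f ∈ V, f = 0 ∨ a ≤ P.ord f) →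
      (∃ f ∈ V, f ≠ 0 ∧ P.ord f = a) → (∃ i, P.ord (φ i) ≠ a) →
      ∃ i, s * (1 - δ₁ P) ≤ ((P.ord (φ i) - a : ℤ) : ℝ))
    {m : ℕ} (hm : 0 < m) {θ : Fin (lam + 1) → (Fin e → Derivation L' K K) → K}
    (hθ : ∀ b, FibSec N m X δ₂ L' (θ b))
    (hne : ∃ G, θ 0 G ≠ 0 ∧ AlgebraicIndependent L' (fun i : Fin lam => θ i.succ G / θ 0 G)) :
    ∃ M : ℕ, 0 < M ∧ ∃ ω : Fin (d + lam + 1) → (Fin (d + e) → Derivation L K K) → K,
      (∀ j, FibSec N M X δ L (ω j)) ∧
      ∃ G, ω 0 G ≠ 0 ∧ AlgebraicIndependent L (fun i : Fin (d + lam) => ω i.succ G / ω 0 G) := by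
  classical
  have hfin : Module.Finite ℂ V := Module.finite_of_finrank_pos (by omega)
  obtain ⟨b⟩ : Nonempty (Module.Basis (Fin (d + k + 1)) ℂ V) :=
    ⟨Module.finBasisOfFinrankEq ℂ V hn⟩
  have hbli : LinearIndependent ℂ (fun i => ((b i : V) : K)) :=
    b.linearIndependent.map' V.subtype V.ker_subtype
  have hbV : Submodule.span ℂ (Set.range fun i => ((b i : V) : K)) = V := by
    have h3 : Set.range (fun i => ((b i : V) : K)) = V.subtype '' Set.range b := by
      rw [← Set.range_comp]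
      rfl
    rw [h3, ← Submodule.map_span, b.span_eq, Submodule.map_top, Submodule.range_subtype]
  have hγ0 : Dcp (d + k) V φ (fun _ => (0 : Fin 1)) := by
    refine ⟨fun i => b i, fun _ => 0, hbli, hbV, fun j => ⟨0, Subsingleton.elim _ _⟩, fun i => ?_⟩
    have h3 : (fun i => ((b i : V) : K)) '' {a | (0 : Fin 1) = 0} =
        Set.range (fun i => ((b i : V) : K)) := by
      ext a
      simp
    rw [h3, hbV, ← hφ]
    exact Submodule.subset_span ⟨i, rfl⟩
  have hc : ∀ γ' : Fin q → Fin (1 + 1), ¬ Dcp (d + k) V φ γ' := by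
    rintro γ' ⟨b, g, hb, hbV, hg, hφb⟩
    exact hγ (Pool.Agent.Q298.EF.dcp_split hb hbV hg hφb)
  obtain ⟨y, ℓ, hliy, hℓ, hℓ0, hcomp, hspl, hspan, hB, hmem, hfm⟩ :=
    lin_data2 (R := R) hφ0 hφ hγ0 hc (by
      rcases hR with hR | ⟨hR1, hR2⟩
      · left
        omega
      · exact Or.inr ⟨rfl, hR1, hR2⟩)
  have hyV : ∀ j, y j ∈ V := fun j => by
    have := hmem (LinearMap.proj j)
    rwa [lf_proj] at this
  have hVy : ∀ f ∈ V, f ∈ Submodule.span ℂ (Set.range y) := by
    intro f hf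
    obtain ⟨ψ, rfl⟩ := hfm f hf
    rw [lf_eq_smul]
    exact Submodule.sum_mem _ fun j _ => Submodule.smul_mem _ _ (Submodule.subset_span ⟨j, rfl⟩)
  -- independence over the algebraic closure
  obtain ⟨A, hAd⟩ : ∃ A : IntermediateField ℂ K, A = Pool.Agent.Y172.acl ℂ (L : Set K) := ⟨_, rfl⟩
  have hliA : LinearIndependent A y := by
    rw [linearIndependent_iff_card_eq_finrank_span, Set.finrank, Fintype.card_fin]
    have h1 : Submodule.span A (Set.range y) = Submodule.span A (V : Set K) := by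
      apply le_antisymm
      · refine Submodule.span_mono ?_
        rintro _ ⟨j, rfl⟩
        exact hyV j
      · rw [Submodule.span_le]
        intro f hf
        have h2 := hVy f hf
        have h3 : Submodule.span ℂ (Set.range y) ≤
            (Submodule.span A (Set.range y)).restrictScalars ℂ := by
          rw [Submodule.span_le]
          intro z hz
          exact Submodule.subset_span hz
        exact h3 h2
    rw [h1]
    rw [← hAd] at hA
    exact hA.symm
  have hy0 : y 0 ≠ 0 := hliy.ne_zero 0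
  obtain ⟨x, hx⟩ : ∃ x : Fin (d + k + 1) → K, ∀ j, x j = y j / y 0 := ⟨_, fun _ => rfl⟩
  have hx0 : x 0 = 1 := by rw [hx, div_self hy0]
  have hyx : ∀ j, y j = x j * y 0 := fun j => by rw [hx, div_mul_cancel₀ _ hy0]
  have hlix : LinearIndependent A x := by
    rw [Fintype.linearIndependent_iff]
    intro c hc i
    refine Fintype.linearIndependent_iff.1 hliA c ?_ i
    have h1 : ∑ j, c j • y j = (∑ j, c j • x j) * y 0 := by
      rw [Finset.sum_mul]
      exact Finset.sum_congr rfl fun j _ => by rw [hyx j, smul_mul_assoc]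
    rw [h1, hc, zero_mul]
  have hxy : ∀ φ : Form (d + k), lf φ y = lf φ x * y 0 := by
    intro φ
    rw [lf_eq_smul, lf_eq_smul, Finset.sum_mul]
    exact Finset.sum_congr rfl fun j _ => by rw [hyx j, smul_mul_assoc]
  -- the fields
  have hle : L ≤ L' := by
    rw [hLV]
    exact le_sup_left
  have hrf : rf V ≤ L' := by
    rw [hLV]
    exact le_sup_right
  have hxL' : ∀ j, x j ∈ L' := fun j => hrf
    (IntermediateField.subset_adjoin ℂ _ ⟨y j, hyV j, y 0, hyV 0, hx j⟩)
  have hML' : ∀ z, z ∈ IntermediateField.adjoin L (Set.range x) ↔ z ∈ L' := by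
    have h1 : IntermediateField.adjoin L (Set.range x) ≤
        IntermediateField.extendScalars (F := L) (E := L') hle := by
      rw [IntermediateField.adjoin_le_iff]
      rintro _ ⟨j, rfl⟩
      exact hxL' j
    have h2 : L' ≤ (IntermediateField.adjoin L (Set.range x)).restrictScalars ℂ := by
      rw [hLV]
      refine sup_le (fun z hz => ?_) ?_
      · exact (IntermediateField.adjoin L (Set.range x)).algebraMap_mem ⟨z, hz⟩
      · unfold rf
        rw [IntermediateField.adjoin_le_iff]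
        have h3 : ∀ f ∈ V, f / y 0 ∈ IntermediateField.adjoin L (Set.range x) := by
          intro f hf
          obtain ⟨ψ, rfl⟩ := hfm f hf
          rw [hxy, mul_div_cancel_right₀ _ hy0, lf_eq_smul]
          refine sum_mem fun j _ => ?_
          rw [Algebra.smul_def]
          exact mul_mem ((IntermediateField.adjoin L (Set.range x)).algebraMap_mem
            (algebraMap ℂ L _)) (IntermediateField.subset_adjoin _ _ ⟨j, rfl⟩)
        rintro z ⟨f, hf, g, hg, rfl⟩
        have h4 := div_mem (h3 f hf) (h3 g hg)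
        rwa [div_div_div_cancel_right₀ hy0] at h4
    exact fun z => ⟨fun hz => h1 hz, fun hz => h2 hz⟩
  have hdM : Algebra.trdeg L (IntermediateField.adjoin L (Set.range x)) = d := by
    refine trdeg_over hL ?_
    rw [← hL']
    let ι : IntermediateField.adjoin L (Set.range x) ≃ₐ[ℂ] L' :=
      { toFun := fun z => ⟨z, (hML' z).1 z.2⟩
        invFun := fun z => ⟨z, (hML' z).2 z.2⟩
        left_inv := fun _ => rfl
        right_inv := fun _ => rfl
        map_mul' := fun _ _ => rfl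
        map_add' := fun _ _ => rfl
        commutes' := fun _ => rfl }
    exact ι.trdeg_eq
  obtain ⟨σ, u, Dt, Du, hσ, F, hxH, hHz⟩ := rel_frame (L := L) (e := e) hx0 hdM
    (trdeg_over hL hK)
  have hh := lin_high2 (N := N) (X := X) (δ := δ₁) (s := s) (γ := fun _ => (0 : Fin 1)) hφ0 hℓ hmem
    hfm hy0 hxy (fun P hPX hPd a ha hb hc => by
      obtain ⟨i, h5⟩ := h P hPX hPd a ha hb hc
      obtain ⟨i', h6⟩ := Pool.Agent.Q298.EF.exists_min hφ0 hφ P ha hb
      refine ⟨i, i', rfl, ?_⟩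
      rw [h6]
      exact h5)
  rw [hAd] at hlix
  obtain ⟨M, hM, f, hf, w, hw0, hw, hwL, hest⟩ := RFr.est_kod (by omega) hℓ0 hcomp hspl hspan hB
    hlix rfl hx0 hdM σ hσ F hxH X δ₁ hδ₁ hs hh
  obtain ⟨ω, h1, h2⟩ := F.pairs (N := N) (κ := d) (L' := L') hle
    (fun f hf => hHz f ((hML' f).2 hf)) (fun j => hxL' _) hδ hm (fun b => (hθ b).1)
    (fun P hPX hPd G hG b => (hθ b).2 P hPX hPd G hG) hne hM hf hw0 hw
    (fun j => (hML' _).1 (hwL j)) hest
  exact ⟨M * m, Nat.mul_pos hM hm, ω, h1, h2⟩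

end Pool.Agent.Q298.JS
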