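import Pool.Agent.Q298.JS.Rel6

/-!
Several linear systems.
-/

set_option autoImplicit false
set_option linter.unusedSectionVars false

open FF hiding phi
open Module Pool.Agent.W602.GT Pool.Agent.TH766.MC
open Pool.Agent.TH585.SV

namespace Pool.Agent.Q298.JS

variable {N e lam : ℕ} {K : Type} [Field K] [Algebra ℂ K]

/-- There are forms along the fibres with `lam` ratios which are algebraically independent over the
function field `L` of the base. -/
def HasF (N : ℕ) (X : Set (Place ℂ K)) (δ : Place ℂ K → ℝ) (L : IntermediateField ℂ K)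
    (e lam : ℕ) : Prop :=
  ∃ m : ℕ, 0 < m ∧ ∃ θ : Fin (lam + 1) → (Fin e → Derivation L K K) → K,
    (∀ b, FibSec N m X δ L (θ b)) ∧
    ∃ G, θ 0 G ≠ 0 ∧ AlgebraicIndependent L (fun i : Fin lam => θ i.succ G / θ 0 G)

/-- the function field of the image under the first `j` linear systems -/
noncomputable def TF {c : ℕ} (V : Fin c → Submodule ℂ K) (j : ℕ) : IntermediateField ℂ K :=
  IntermediateField.adjoin ℂ {y : K | ∃ i : Fin c, (i : ℕ) < j ∧ ∃ f ∈ V i, ∃ g ∈ V i, y = f / g}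

theorem TF_zero {c : ℕ} (V : Fin c → Submodule ℂ K) : TF V 0 = ⊥ := by
  unfold TF
  rw [eq_bot_iff, IntermediateField.adjoin_le_iff]
  rintro y ⟨i, hi, -⟩
  exact absurd hi (Nat.not_lt_zero _)

theorem TF_succ {c : ℕ} (V : Fin c → Submodule ℂ K) (i : Fin c) :
    TF V (i + 1) = TF V i ⊔ rf (V i) := by
  unfold TF rf
  apply le_antisymm
  · rw [IntermediateField.adjoin_le_iff]
    rintro y ⟨j, hj, f, hf, g, hg, rfl⟩
    rcases Nat.lt_succ_iff_lt_or_eq.1 hj with h | h
    · exact (le_sup_left : IntermediateField.adjoin ℂ _ ≤ _)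
        (IntermediateField.subset_adjoin ℂ _ ⟨j, h, f, hf, g, hg, rfl⟩)
    · obtain rfl : j = i := Fin.ext h
      exact (le_sup_right : IntermediateField.adjoin ℂ _ ≤ _)
        (IntermediateField.subset_adjoin ℂ _ ⟨f, hf, g, hg, rfl⟩)
  · refine sup_le (IntermediateField.adjoin.mono ℂ _ _ ?_) ?_
    · rintro y ⟨j, hj, h⟩
      exact ⟨j, by omega, h⟩
    · rw [IntermediateField.adjoin_le_iff]
      rintro y ⟨f, hf, g, hg, rfl⟩
      exact IntermediateField.subset_adjoin ℂ _ ⟨i, Nat.lt_succ_self _, f, hf, g, hg, rfl⟩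

theorem HasF.mono {X : Set (Place ℂ K)} {δ δ' : Place ℂ K → ℝ} (h : ∀ P ∈ X, δ P ≤ δ' P)
    {L : IntermediateField ℂ K} (hF : HasF N X δ L e lam) : HasF N X δ' L e lam := by
  obtain ⟨m, hm, θ, hθ, hne⟩ := hF
  refine ⟨m, hm, θ, fun b => ⟨(hθ b).1, fun P hPX hPd G hG => ?_⟩, hne⟩
  rcases (hθ b).2 P hPX hPd G hG with h1 | h1
  · exact Or.inl h1
  · right
    have h2 := mul_le_mul_of_nonneg_left (h P hPX) (Nat.cast_nonneg (α := ℝ) m)
    linarith

/-- forms along the fibres of the map to a point -/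
theorem HasF.abs {X : Set (Place ℂ K)} {δ : Place ℂ K → ℝ} {w κ : ℕ}
    (hF : HasF w X δ (⊥ : IntermediateField ℂ K) w κ) :
    ∃ M : ℕ, 0 < M ∧ ∃ ω : Fin (κ + 1) → (Fin w → Derivation ℂ K K) → K,
      (∀ j, PairSec w X δ M (ω j)) ∧
      ∃ D, ω 0 D ≠ 0 ∧ AlgebraicIndependent ℂ (fun i : Fin κ => ω i.succ D / ω 0 D) := by
  obtain ⟨m, hm, θ, hθ, G, hG, hind⟩ := hF
  have hkl : ∀ D : Derivation ℂ K K, ∀ f ∈ (⊥ : IntermediateField ℂ K), D f = 0 := by
    intro D f hf
    rw [IntermediateField.mem_bot] at hf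
    obtain ⟨a, rfl⟩ := hf
    exact D.map_algebraMap a
  refine ⟨m, hm, fun j D => θ j fun i => lft ⊥ (D i) (hkl (D i)), fun j => ⟨?_, ?_⟩,
    fun i => (G i).restrictScalars ℂ, ?_, ?_⟩
  · intro A D
    have h1 : (fun i => lft (⊥ : IntermediateField ℂ K) (∑ j, A i j • D j) (hkl _)) =
        fun i => ∑ j, A i j • lft ⊥ (D j) (hkl (D j)) := by
      funext i
      ext f
      rw [lft_apply, Pool.Agent.TH152.HY.der_sum, Pool.Agent.W308.PG.YLOC.der_sum_apply]
      rfl
    change θ j (fun i => lft (⊥ : IntermediateField ℂ K) (∑ j, A i j • D j) (hkl _)) = _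
    rw [h1]
    exact (hθ j).1 A _
  · intro P hPX hPd D hD
    exact (hθ j).2 P hPX hPd _ fun i => hD i
  · exact hG
  · exact hind.restrictScalars (algebraMap ℂ (⊥ : IntermediateField ℂ K)).injective

/-- **Several linear systems.** -/
theorem tower {c : ℕ} {V : Fin c → Submodule ℂ K} {D : ℕ → ℕ}
    (hD : ∀ j ≤ c, Algebra.trdeg ℂ (TF V j) = D j) {d k : Fin c → ℕ} (hd : ∀ i, 1 ≤ d i)
    (hDs : ∀ i : Fin c, D (i + 1) = D i + d i) (hK : Algebra.trdeg ℂ K = (D c + e : ℕ))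
    (hn : ∀ i, Module.finrank ℂ (V i) = d i + k i + 1)
    (hA : ∀ i : Fin c, Module.finrank (Pool.Agent.Y172.acl ℂ (TF V i : Set K))
      (Submodule.span (Pool.Agent.Y172.acl ℂ (TF V i : Set K)) (V i : Set K)) = d i + k i + 1)
    {q : Fin c → ℕ} {φ : ∀ i, Fin (q i) → K} (hφ0 : ∀ i j, φ i j ≠ 0)
    (hφ : ∀ i, Submodule.span ℂ (Set.range (φ i)) = V i)
    (hγ : ∀ i, ¬ ∃ V1 V2 : Submodule ℂ K, V1 ≠ ⊥ ∧ V2 ≠ ⊥ ∧ Disjoint V1 V2 ∧ V1 ⊔ V2 = V i ∧
      ∀ j, φ i j ∈ V1 ∨ φ i j ∈ V2)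
    {R : Fin c → ℕ} (hR : ∀ i, R i = d i + k i + 2 ∨
      ((∃ τ : Fin (d i + k i + 3) → Fin (q i), ∀ a b, a ≠ b → ∀ t : ℂ,
        φ i (τ a) ≠ t • φ i (τ b)) ∧ R i = d i + k i + 1))
    (X : Set (Place ℂ K)) (δ₁ : Fin c → Place ℂ K → ℝ) (δ₂ δ : Place ℂ K → ℝ)
    (hδ₁ : ∀ i, ∀ P ∈ X, 0 ≤ δ₁ i P) (hδ : ∀ P ∈ X, ∑ i, δ₁ i P + δ₂ P ≤ δ P) {s : Fin c → ℝ}
    (hs : ∀ i, (R i : ℝ) * ((k i + 1) * (k i + 2)) < 2 * s i)
    (h : ∀ i, ∀ P ∈ X, Divisorial N P → ∀ a : ℤ, (∀ f ∈ V i, f = 0 ∨ a ≤ P.ord f) →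
      (∃ f ∈ V i, f ≠ 0 ∧ P.ord f = a) → (∃ j, P.ord (φ i j) ≠ a) →
      ∃ j, s i * (1 - δ₁ i P) ≤ ((P.ord (φ i j) - a : ℤ) : ℝ))
    (hF : HasF N X δ₂ (TF V c) e lam) :
    HasF N X δ (TF V 0) (D c - D 0 + e) (D c - D 0 + lam) := by
  classical
  have hmono : ∀ r j, j + r = c → D j ≤ D c := by
    intro r
    induction r with
    | zero => intro j hj; rw [← hj]; simp
    | succ r ih =>
      intro j hj
      have h1 := hDs ⟨j, by omega⟩
      have h2 := ih (j + 1) (by omega)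
      have h3 : D (j + 1) = D j + d ⟨j, by omega⟩ := h1
      omega
  have key : ∀ r j, j + r = c → HasF N X (fun P => (∑ i : Fin c, if j ≤ (i : ℕ) then δ₁ i P else 0)
      + δ₂ P) (TF V j) (D c - D j + e) (D c - D j + lam) := by
    intro r
    induction r with
    | zero =>
      intro j hj
      obtain rfl : j = c := by omega
      rw [Nat.sub_self, Nat.zero_add, Nat.zero_add]
      refine hF.mono fun P hP => ?_
      have h1 : (∑ i : Fin j, if j ≤ (i : ℕ) then δ₁ i P else 0) = 0 :=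
        Finset.sum_eq_zero fun i _ => by rw [if_neg (by omega)]
      rw [h1, zero_add]
    | succ r ih =>
      intro j hj
      obtain ⟨i, hi⟩ : ∃ i : Fin c, (i : ℕ) = j := ⟨⟨j, by omega⟩, rfl⟩
      obtain ⟨m, hm, θ, hθ, hne⟩ := ih (j + 1) (by omega)
      have h1 : D (j + 1) = D j + d i := by
        have := hDs i
        rwa [hi] at this
      have h2 := hmono r (j + 1) (by omega)
      have hLV : TF V (j + 1) = TF V j ⊔ rf (V i) := by
        have := TF_succ V i
        rwa [hi] at this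
      have hAj := hA i
      rw [hi] at hAj
      have e1 : D c - D j + e = d i + (D c - D (j + 1) + e) := by omega
      have e2 : D c - D j + lam = d i + (D c - D (j + 1) + lam) := by omega
      rw [e1, e2]
      exact lin_stage (N := N) (hd i) hLV (hD j (by omega)) (by rw [hD (j + 1) (by omega), h1])
        (by rw [hK]; congr 1; omega) (hn i) hAj (hφ0 i) (hφ i) (hγ i) (hR i) X (δ₁ i) _ _
        (hδ₁ i) (fun P hP => by
          have h3 : ∀ a : Fin c, (if j ≤ (a : ℕ) then δ₁ a P else 0) =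
              (if a = i then δ₁ a P else 0) + if j + 1 ≤ (a : ℕ) then δ₁ a P else 0 := by
            intro a
            by_cases ha : a = i
            · subst ha
              rw [if_pos (by omega), if_pos rfl, if_neg (by omega), add_zero]
            · have ha' : (a : ℕ) ≠ j := fun h => ha (Fin.ext (by rw [h, hi]))
              rw [if_neg ha, zero_add]
              congr 1
              exact propext ⟨fun h => by omega, fun h => by omega⟩
          have h4 : (∑ a : Fin c, if j ≤ (a : ℕ) then δ₁ a P else 0) = δ₁ i P +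
              ∑ a : Fin c, if j + 1 ≤ (a : ℕ) then δ₁ a P else 0 := by
            rw [Finset.sum_congr rfl fun a _ => h3 a, Finset.sum_add_distrib,
              Finset.sum_ite_eq' Finset.univ i, if_pos (Finset.mem_univ _)]
          rw [h4, add_assoc]) (hs i) (h i) hm hθ hne
  refine (key c 0 (by omega)).mono fun P hP => ?_
  refine le_trans (le_of_eq ?_) (hδ P hP)
  congr 1

end Pool.Agent.Q298.JS
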